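import Pool.Agent.Lib_helper59.PV.Erg2

/-! Project PV (MP_b08f5f_an), blocks B3a and B3b: Birkhoff's theorem for a bounded function, and
the pointwise ergodic theorem with a phase for a measurable flow on a finite measure space. -/

set_option autoImplicit false

namespace Pool.Agent.Lib_helper25.PV

open MeasureTheory Filter Topology Set
open Pool.Agent.PVErg

noncomputable section

/-- B3a: Birkhoff's theorem for a bounded measurable function on a finite measure space -/
theorem birkhoff {α : Type*} [MeasurableSpace α] {μ : Measure α} [IsFiniteMeasure μ] {τ : α → α}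
    (hτ : MeasurePreserving τ μ μ) {f : α → ℝ} (hf : Measurable f) {C : ℝ}
    (hC : ∀ x, |f x| ≤ C) :
    ∀ᵐ x ∂μ, ∃ l : ℝ, Tendsto (fun n : ℕ => (∑ k ∈ Finset.range n, f (τ^[k] x)) / n) atTop
      (𝓝 l) := by
  have hfm : Measurable (fun x => (f x : ℂ)) := Complex.measurable_ofReal.comp hf
  have hb : ∀ x, ‖((f x : ℝ) : ℂ)‖ ≤ C := fun x => by
    rw [Complex.norm_real, Real.norm_eq_abs]; exact hC x
  obtain ⟨g, -, -, -, hlim⟩ := pointwise hτ (w := 1) (by simp) hfm hb
    (MemLp.of_bound hfm.aestronglyMeasurable C (Eventually.of_forall hb))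
  filter_upwards [hlim] with x hx
  refine ⟨(g x).re, ?_⟩
  have h1 := (Complex.continuous_re.tendsto (g x)).comp hx
  refine h1.congr fun n => ?_
  simp only [Function.comp_apply, ws, one_pow, one_mul]
  rw [← Complex.ofReal_sum, ← Complex.ofReal_natCast, ← Complex.ofReal_div, Complex.ofReal_re]

section

variable {α : Type*} [MeasurableSpace α]

/-- the integrand along the orbit of `x` -/
def hint (φ : ℝ → α → α) (κ : ℝ) (f : α → ℂ) (x : α) (t : ℝ) : ℂ :=
  Complex.exp (κ * t * Complex.I) * f (φ t x)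

theorem norm_phase (κ t : ℝ) : ‖Complex.exp (κ * t * Complex.I)‖ = 1 := by
  rw [← Complex.ofReal_mul, Complex.norm_exp_ofReal_mul_I]

variable {φ : ℝ → α → α} {κ : ℝ} {f : α → ℂ}

omit [MeasurableSpace α] in
theorem hint_bound {C : ℝ} (hC : ∀ x, ‖f x‖ ≤ C) (x : α) (t : ℝ) : ‖hint φ κ f x t‖ ≤ C := by
  unfold hint
  rw [norm_mul, norm_phase, one_mul]
  exact hC _

theorem hint_measurable (hmeas : Measurable (fun p : ℝ × α => φ p.1 p.2)) (hf : Measurable f) :
    Measurable (fun p : α × ℝ => hint φ κ f p.1 p.2) := by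
  unfold hint
  have h1 : Measurable (fun p : α × ℝ => f (φ p.2 p.1)) :=
    hf.comp (hmeas.comp (measurable_snd.prodMk measurable_fst))
  have h2 : Measurable (fun p : α × ℝ => Complex.exp (κ * (p.2 : ℝ) * Complex.I)) := by
    have hc : Continuous (fun t : ℝ => Complex.exp (κ * t * Complex.I)) := by fun_prop
    exact hc.measurable.comp measurable_snd
  exact h2.mul h1

theorem hint_intble (hmeas : Measurable (fun p : ℝ × α => φ p.1 p.2)) (hf : Measurable f)
    {C : ℝ} (hC : ∀ x, ‖f x‖ ≤ C) (x : α) (a b : ℝ) :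
    IntervalIntegrable (hint φ κ f x) volume a b := by
  have hm : Measurable (hint φ κ f x) := by
    have := (hint_measurable (κ := κ) hmeas hf).comp (measurable_prodMk_left (x := x))
    exact this
  have hc : IntervalIntegrable (fun _ : ℝ => C) volume a b := intervalIntegrable_const
  refine hc.mono_fun hm.aestronglyMeasurable (Eventually.of_forall fun t => ?_)
  refine (hint_bound hC x t).trans (le_abs_self _)

omit [MeasurableSpace α] in
theorem integral_diff_bound {C : ℝ} (hC : ∀ x, ‖f x‖ ≤ C) (x : α) (a b : ℝ) :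
    ‖∫ t in a..b, hint φ κ f x t‖ ≤ C * |b - a| :=
  intervalIntegral.norm_integral_le_of_norm_le_const fun t _ => hint_bound hC x t

omit [MeasurableSpace α] in
/-- the integral along a shifted orbit -/
theorem integral_shift (hadd : ∀ s t x, φ (s + t) x = φ s (φ t x)) (x : α) (a b s : ℝ) :
    ∫ t in a..b, hint φ κ f (φ s x) t
      = Complex.exp (-(κ * s * Complex.I)) * ∫ t in (a + s)..(b + s), hint φ κ f x t := by
  rw [← intervalIntegral.integral_comp_add_right, ← intervalIntegral.integral_const_mul]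
  refine intervalIntegral.integral_congr fun t _ => ?_
  simp only [hint]
  rw [← hadd, ← mul_assoc, ← Complex.exp_add]
  congr 2
  push_cast
  ring

theorem integral_nat (h0 : ∀ x, φ 0 x = x) (hadd : ∀ s t x, φ (s + t) x = φ s (φ t x))
    (hmeas : Measurable (fun p : ℝ × α => φ p.1 p.2)) (hf : Measurable f)
    {C : ℝ} (hC : ∀ x, ‖f x‖ ≤ C) (x : α) (n : ℕ) :
    ∫ t in (0 : ℝ)..n, hint φ κ f x t
      = ws (φ 1) (Complex.exp (κ * Complex.I)) (fun y => ∫ t in (0 : ℝ)..1, hint φ κ f y t) n x := by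
  have hit : ∀ n : ℕ, (φ 1)^[n] x = φ n x := by
    intro n
    induction n with
    | zero => simp [h0]
    | succ n ih =>
      rw [Function.iterate_succ_apply', ih, ← hadd]
      push_cast
      rw [add_comm]
  induction n with
  | zero => simp [ws]
  | succ n ih =>
    have h1 : ∫ t in (0 : ℝ)..((n + 1 : ℕ) : ℝ), hint φ κ f x t
        = (∫ t in (0 : ℝ)..n, hint φ κ f x t) + ∫ t in (n : ℝ)..((n + 1 : ℕ) : ℝ), hint φ κ f x t :=
      (intervalIntegral.integral_add_adjacent_intervals (hint_intble hmeas hf hC x _ _)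
        (hint_intble hmeas hf hC x _ _)).symm
    have h2 : ws (φ 1) (Complex.exp (κ * Complex.I))
        (fun y => ∫ t in (0 : ℝ)..1, hint φ κ f y t) (n + 1) x
        = ws (φ 1) (Complex.exp (κ * Complex.I))
          (fun y => ∫ t in (0 : ℝ)..1, hint φ κ f y t) n x
          + Complex.exp (κ * Complex.I) ^ n * ∫ t in (0 : ℝ)..1, hint φ κ f ((φ 1)^[n] x) t := by
      unfold ws
      rw [Finset.sum_range_succ]
    rw [h1, h2, ih, hit n, integral_shift hadd]
    congr 1
    rw [← mul_assoc, ← Complex.exp_nat_mul, ← Complex.exp_add]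
    have h3 : (n : ℂ) * (κ * Complex.I) + -((κ : ℂ) * ((n : ℝ) : ℂ) * Complex.I) = 0 := by
      push_cast
      ring
    rw [h3, Complex.exp_zero, one_mul, zero_add]
    congr 1
    push_cast
    ring

/-- B3b: the pointwise ergodic theorem with a phase -/
theorem phase_ergodic {α : Type*} [MeasurableSpace α] (μ : Measure α) [IsFiniteMeasure μ]
    (φ : ℝ → α → α) (h0 : ∀ x, φ 0 x = x) (hadd : ∀ s t x, φ (s + t) x = φ s (φ t x))
    (hmeas : Measurable (fun p : ℝ × α => φ p.1 p.2)) (hmp : ∀ t, MeasurePreserving (φ t) μ μ)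
    (κ : ℝ) {f : α → ℂ} (hf : Measurable f) {C : ℝ} (hC : ∀ x, ‖f x‖ ≤ C) :
    ∃ g : α → ℂ, Measurable g ∧ (∀ x, ‖g x‖ ≤ C) ∧
      (∀ᵐ x ∂μ, Tendsto (fun T : ℝ => (T : ℂ)⁻¹ *
        ∫ t in (0 : ℝ)..T, Complex.exp (κ * t * Complex.I) * f (φ t x)) atTop (𝓝 (g x))) ∧
      ∀ s : ℝ, ∀ᵐ x ∂μ, g (φ s x) = Complex.exp (-(κ * s * Complex.I)) * g x := by
  set F : α → ℂ := fun y => ∫ t in (0 : ℝ)..1, hint φ κ f y t with hF
  have hFm : Measurable F := by
    have h1 : F = fun y => ∫ t in Ioc (0 : ℝ) 1, hint φ κ f y t := by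
      funext y
      rw [hF]
      exact intervalIntegral.integral_of_le zero_le_one
    rw [h1]
    have h2 : StronglyMeasurable (fun p : α × ℝ => hint φ κ f p.1 p.2) :=
      (hint_measurable hmeas hf).stronglyMeasurable
    exact (h2.integral_prod_right (ν := volume.restrict (Ioc (0 : ℝ) 1))).measurable
  have hFb : ∀ x, ‖F x‖ ≤ C := fun x => by
    have := integral_diff_bound (φ := φ) (κ := κ) hC x 0 1
    simpa using this
  have hw : ‖Complex.exp (κ * Complex.I)‖ = 1 := Complex.norm_exp_ofReal_mul_I κ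
  obtain ⟨g0, hg0m, -, -, hlim0⟩ := pointwise (hmp 1) hw hFm hFb
    (MemLp.of_bound hFm.aestronglyMeasurable C (Eventually.of_forall hFb))
  -- real times
  have hreal : ∀ᵐ x ∂μ, Tendsto (fun T : ℝ => (T : ℂ)⁻¹ * ∫ t in (0 : ℝ)..T, hint φ κ f x t) atTop
      (𝓝 (g0 x)) := by
    filter_upwards [hlim0] with x hx
    have hC0 : 0 ≤ C := (norm_nonneg _).trans (hC x)
    have h1 : Tendsto (fun T : ℝ => (((⌊T⌋₊ : ℝ) / T : ℝ) : ℂ) *
        ((∫ t in (0 : ℝ)..(⌊T⌋₊ : ℕ), hint φ κ f x t) / (⌊T⌋₊ : ℂ))) atTop (𝓝 (1 * g0 x)) := by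
      refine Tendsto.mul ?_ ?_
      · rw [← Complex.ofReal_one]
        exact (Complex.continuous_ofReal.tendsto (1 : ℝ)).comp
          (tendsto_nat_floor_div_atTop (R := ℝ))
      · have h2 := hx.comp (tendsto_nat_floor_atTop (α := ℝ))
        refine h2.congr fun T => ?_
        simp only [Function.comp_apply]
        rw [integral_nat h0 hadd hmeas hf hC]
    have h2 : Tendsto (fun T : ℝ => (T : ℂ)⁻¹ * ∫ t in ((⌊T⌋₊ : ℕ) : ℝ)..T, hint φ κ f x t) atTop
        (𝓝 0) := by
      rw [tendsto_zero_iff_norm_tendsto_zero]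
      refine squeeze_zero' (Eventually.of_forall fun T => norm_nonneg _)
        (g := fun T : ℝ => C * T⁻¹) ?_ ?_
      · filter_upwards [eventually_gt_atTop (0 : ℝ)] with T hT
        rw [norm_mul, norm_inv, Complex.norm_real, Real.norm_eq_abs, abs_of_pos hT, mul_comm]
        refine mul_le_mul_of_nonneg_right ?_ (inv_nonneg.mpr hT.le)
        refine (integral_diff_bound hC x _ _).trans ?_
        have h3 : |T - (⌊T⌋₊ : ℝ)| ≤ 1 := by
          have h4 := Nat.floor_le hT.le
          have h5 := Nat.lt_floor_add_one T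
          rw [abs_of_nonneg (by linarith)]
          linarith
        calc C * |T - (⌊T⌋₊ : ℝ)| ≤ C * 1 := mul_le_mul_of_nonneg_left h3 hC0
          _ = C := mul_one C
      · simpa using tendsto_inv_atTop_zero.const_mul C
    have h3 := h1.add h2
    rw [one_mul, add_zero] at h3
    refine h3.congr' ?_
    filter_upwards [eventually_ge_atTop (1 : ℝ)] with T hT
    have hn : (⌊T⌋₊ : ℂ) ≠ 0 := by
      have : ⌊T⌋₊ ≠ 0 := (Nat.floor_pos.mpr hT).ne'
      exact_mod_cast this
    have hT0 : (T : ℂ) ≠ 0 := by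
      have : T ≠ 0 := by linarith
      exact_mod_cast this
    rw [← intervalIntegral.integral_add_adjacent_intervals
      (hint_intble hmeas hf hC x 0 ((⌊T⌋₊ : ℕ) : ℝ)) (hint_intble hmeas hf hC x _ T)]
    push_cast
    field_simp
  -- bounded version
  set g : α → ℂ := fun x => if ‖g0 x‖ ≤ C then g0 x else 0 with hg
  have hgm : Measurable g :=
    Measurable.ite (measurableSet_le hg0m.norm measurable_const) hg0m measurable_const
  have hgb : ∀ x, ‖g x‖ ≤ C := by
    intro x
    have hC0 : 0 ≤ C := (norm_nonneg _).trans (hC x)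
    by_cases hx : ‖g0 x‖ ≤ C
    · simp only [hg, if_pos hx]; exact hx
    · simp only [hg, if_neg hx, norm_zero]; exact hC0
  have hgae : ∀ᵐ x ∂μ, Tendsto (fun T : ℝ => (T : ℂ)⁻¹ * ∫ t in (0 : ℝ)..T, hint φ κ f x t) atTop
      (𝓝 (g x)) := by
    filter_upwards [hreal] with x hx
    have h1 : ‖g0 x‖ ≤ C := by
      refine le_of_tendsto hx.norm ?_
      filter_upwards [eventually_gt_atTop (0 : ℝ)] with T hT
      rw [norm_mul, norm_inv, Complex.norm_real, Real.norm_eq_abs, abs_of_pos hT]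
      have h2 := integral_diff_bound (φ := φ) (κ := κ) hC x 0 T
      rw [sub_zero, abs_of_pos hT] at h2
      calc T⁻¹ * ‖∫ t in (0 : ℝ)..T, hint φ κ f x t‖ ≤ T⁻¹ * (C * T) :=
            mul_le_mul_of_nonneg_left h2 (inv_nonneg.mpr hT.le)
        _ = C := by field_simp
    have h2 : g x = g0 x := by simp only [hg, if_pos h1]
    rw [h2]
    exact hx
  refine ⟨g, hgm, hgb, hgae, fun s => ?_⟩
  filter_upwards [hgae, (hmp s).quasiMeasurePreserving.ae hgae] with x hx hsx
  have hC0 : 0 ≤ C := (norm_nonneg _).trans (hC x)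
  have h1 : Tendsto (fun T : ℝ => (T : ℂ)⁻¹ * ((∫ t in T..(T + s), hint φ κ f x t)
      - ∫ t in (0 : ℝ)..s, hint φ κ f x t)) atTop (𝓝 0) := by
    rw [tendsto_zero_iff_norm_tendsto_zero]
    refine squeeze_zero' (Eventually.of_forall fun T => norm_nonneg _)
      (g := fun T : ℝ => (2 * (C * |s|)) * T⁻¹) ?_ ?_
    · filter_upwards [eventually_gt_atTop (0 : ℝ)] with T hT
      rw [norm_mul, norm_inv, Complex.norm_real, Real.norm_eq_abs, abs_of_pos hT, mul_comm]
      refine mul_le_mul_of_nonneg_right ?_ (inv_nonneg.mpr hT.le)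
      refine (norm_sub_le _ _).trans ?_
      have h2 := integral_diff_bound (φ := φ) (κ := κ) hC x T (T + s)
      have h3 := integral_diff_bound (φ := φ) (κ := κ) hC x 0 s
      rw [add_sub_cancel_left] at h2
      rw [sub_zero] at h3
      linarith
    · simpa using tendsto_inv_atTop_zero.const_mul (2 * (C * |s|))
  have h2 := ((hx.add h1).const_mul (Complex.exp (-(κ * s * Complex.I))))
  rw [add_zero] at h2
  refine tendsto_nhds_unique hsx (h2.congr fun T => ?_)
  have h3 := integral_shift (κ := κ) (f := f) hadd x 0 T s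
  rw [h3, zero_add]
  have h4 : (∫ t in (0 : ℝ)..T, hint φ κ f x t) + ∫ t in T..(T + s), hint φ κ f x t
      = ∫ t in (0 : ℝ)..(T + s), hint φ κ f x t :=
    intervalIntegral.integral_add_adjacent_intervals (hint_intble hmeas hf hC x _ _)
      (hint_intble hmeas hf hC x _ _)
  have h5 : (∫ t in (0 : ℝ)..s, hint φ κ f x t) + ∫ t in s..(T + s), hint φ κ f x t
      = ∫ t in (0 : ℝ)..(T + s), hint φ κ f x t :=
    intervalIntegral.integral_add_adjacent_intervals (hint_intble hmeas hf hC x _ _)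
      (hint_intble hmeas hf hC x _ _)
  have h6 : ∫ t in s..(T + s), hint φ κ f x t = (∫ t in (0 : ℝ)..T, hint φ κ f x t)
      + ((∫ t in T..(T + s), hint φ κ f x t) - ∫ t in (0 : ℝ)..s, hint φ κ f x t) := by
    rw [← sub_eq_zero]
    linear_combination h5 - h4
  rw [h6]
  ring

end

end

end Pool.Agent.Lib_helper25.PV
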