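import Pool.Agent.Lib_helper59.PV.Erg1

/-! Project PV (MP_b08f5f_an), block B3, part 2: mean and pointwise ergodic theorem with a phase. -/

set_option autoImplicit false

namespace Pool.Agent.PVErg

open MeasureTheory Filter Topology Set
open scoped ENNReal

noncomputable section

variable {X : Type*} [MeasurableSpace X] {μ : Measure X} {T : X → X}

theorem norm_sq_Lp (u : Lp ℂ 2 μ) : ‖u‖ ^ 2 = ∫ x, ‖u x‖ ^ 2 ∂μ := by
  have h1 : ‖u‖ ^ 2 = RCLike.re (inner ℂ u u) := by
    rw [inner_self_eq_norm_sq_to_K]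
    norm_cast
  have h2 : (inner ℂ u u : ℂ) = ((∫ x, ‖u x‖ ^ 2 ∂μ : ℝ) : ℂ) := by
    rw [L2.inner_def, ← integral_complex_ofReal]
    refine integral_congr_ae (Eventually.of_forall fun x => ?_)
    simp only [inner_self_eq_norm_sq_to_K]
    norm_cast
  rw [h1, h2]
  simp

/-- von Neumann's theorem with a phase -/
theorem mean_phase (hT : MeasurePreserving T μ μ) {w : ℂ} (hw : ‖w‖ = 1) {f : X → ℂ}
    (hf : MemLp f 2 μ) : ∃ g : X → ℂ, Measurable g ∧ MemLp g 2 μ ∧
      (∀ᵐ x ∂μ, w * g (T x) = g x) ∧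
      Tendsto (fun n : ℕ => ∫ x, ‖ws T w f n x / n - g x‖ ^ 2 ∂μ) atTop (𝓝 0) := by
  set U := (Lp.compMeasurePreservingₗᵢ ℂ (E := ℂ) (p := 2) T hT).toContinuousLinearMap with hU
  set V : Lp ℂ 2 μ →L[ℂ] Lp ℂ 2 μ := w • U with hV
  have hU1 : ‖U‖ ≤ 1 := LinearIsometry.norm_toContinuousLinearMap_le _
  have hV1 : ‖V‖ ≤ 1 := by rw [hV, norm_smul, hw, one_mul]; exact hU1
  set y : Lp ℂ 2 μ := hf.toLp f with hy
  obtain ⟨P, hfix, hmain⟩ : ∃ P : Lp ℂ 2 μ, V P = P ∧
      Tendsto (birkhoffAverage ℂ V _root_.id · y) atTop (𝓝 P) := by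
    refine ⟨_, ?_, ContinuousLinearMap.tendsto_birkhoffAverage_orthogonalProjection V hV1 y⟩
    have h1 := ((V.eqLocus (1 : Lp ℂ 2 μ →L[ℂ] Lp ℂ 2 μ)).orthogonalProjectionOnto y).2
    exact h1
  -- action of V
  have hVc : ∀ u : Lp ℂ 2 μ, (V u : X → ℂ) =ᵐ[μ] fun x => w * u (T x) := by
    intro u
    have h1 : V u = w • (Lp.compMeasurePreserving T hT u) := rfl
    rw [h1]
    filter_upwards [Lp.coeFn_smul w (Lp.compMeasurePreserving T hT u),
      Lp.coeFn_compMeasurePreserving u hT] with x h2 h3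
    rw [h2, Pi.smul_apply, h3, smul_eq_mul]
    rfl
  have hit : ∀ k : ℕ, (V^[k] y : X → ℂ) =ᵐ[μ] fun x => w ^ k * f (T^[k] x) := by
    intro k
    induction k with
    | zero => simpa using hf.coeFn_toLp
    | succ k ih =>
      rw [Function.iterate_succ_apply']
      filter_upwards [hVc (V^[k] y), hT.quasiMeasurePreserving.ae_eq_comp ih] with x h1 h2
      rw [h1]
      have h3 : (V^[k] y : X → ℂ) (T x) = w ^ k * f (T^[k] (T x)) := h2
      rw [h3, ← Function.iterate_succ_apply, pow_succ]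
      ring
  have hsum : ∀ n : ℕ, ((birkhoffSum V _root_.id n y : Lp ℂ 2 μ) : X → ℂ) =ᵐ[μ] ws T w f n := by
    intro n
    induction n with
    | zero =>
      simp only [birkhoffSum_zero]
      filter_upwards [Lp.coeFn_zero ℂ 2 μ] with x hx
      rw [hx]; simp [ws]
    | succ n ih =>
      rw [birkhoffSum_succ]
      filter_upwards [Lp.coeFn_add (birkhoffSum V _root_.id n y) (_root_.id (V^[n] y)), ih,
        hit n] with x h2 h3 h4
      rw [h2, Pi.add_apply, h3]
      unfold ws
      rw [Finset.sum_range_succ]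
      congr 1
  have hav : ∀ n : ℕ, (birkhoffAverage ℂ V _root_.id n y - P : Lp ℂ 2 μ) =ᵐ[μ]
      fun x => ws T w f n x / n - P x := by
    intro n
    rw [birkhoffAverage]
    filter_upwards [Lp.coeFn_sub ((n : ℂ)⁻¹ • birkhoffSum V _root_.id n y) P,
      Lp.coeFn_smul ((n : ℂ)⁻¹) (birkhoffSum V _root_.id n y), hsum n] with x h1 h2 h3
    rw [h1, Pi.sub_apply, h2, Pi.smul_apply, h3, smul_eq_mul, div_eq_inv_mul]
  refine ⟨P, (Lp.stronglyMeasurable P).measurable, Lp.memLp P, ?_, ?_⟩
  · have h1 := hVc P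
    rw [hfix] at h1
    exact h1.mono fun x hx => hx.symm
  · have h1 : ∀ n : ℕ, ∫ x, ‖ws T w f n x / n - P x‖ ^ 2 ∂μ
        = ‖birkhoffAverage ℂ V _root_.id n y - P‖ ^ 2 := by
      intro n
      rw [norm_sq_Lp]
      refine integral_congr_ae ((hav n).mono fun x hx => ?_)
      show ‖ws T w f n x / n - P x‖ ^ 2 = ‖(birkhoffAverage ℂ V _root_.id n y - P : Lp ℂ 2 μ) x‖ ^ 2
      rw [hx]
    simp only [h1]
    have h2 : Tendsto (fun n => ‖birkhoffAverage ℂ V _root_.id n y - P‖) atTop (𝓝 0) :=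
      tendsto_iff_norm_sub_tendsto_zero.mp hmain
    simpa using h2.pow 2

omit [MeasurableSpace X] in
theorem ws_add (T : X → X) (w : ℂ) (f g : X → ℂ) (n : ℕ) (x : X) :
    ws T w (fun x => f x + g x) n x = ws T w f n x + ws T w g n x := by
  unfold ws
  rw [← Finset.sum_add_distrib]
  exact Finset.sum_congr rfl fun k _ => by ring

omit [MeasurableSpace X] in
/-- telescoping -/
theorem ws_cob (T : X → X) (w : ℂ) (h : X → ℂ) (n : ℕ) (x : X) :
    ws T w (fun x => h x - w * h (T x)) n x = h x - w ^ n * h (T^[n] x) := by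
  induction n with
  | zero => simp [ws]
  | succ n ih =>
    have : ws T w (fun x => h x - w * h (T x)) (n + 1) x
        = ws T w (fun x => h x - w * h (T x)) n x
          + w ^ n * (h (T^[n] x) - w * h (T (T^[n] x))) := by
      unfold ws
      rw [Finset.sum_range_succ]
    rw [this, ih, Function.iterate_succ_apply' T n x, pow_succ]
    ring

omit [MeasurableSpace X] in
theorem ws_bound (T : X → X) {w : ℂ} (hw : ‖w‖ = 1) {f : X → ℂ} {C : ℝ} (hC : ∀ x, ‖f x‖ ≤ C)
    (n : ℕ) (x : X) : ‖ws T w f n x‖ ≤ n * C := by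
  unfold ws
  calc ‖∑ k ∈ Finset.range n, w ^ k * f (T^[k] x)‖ ≤ ∑ k ∈ Finset.range n, C := by
        refine norm_sum_le_of_le _ fun k _ => ?_
        rw [norm_mul, norm_pow, hw, one_pow, one_mul]
        exact hC _
    _ = n * C := by simp

omit [MeasurableSpace X] in
theorem ws_succ' (T : X → X) (w : ℂ) (f : X → ℂ) (n : ℕ) (x : X) :
    ws T w f (n + 1) x = f x + w * ws T w f n (T x) := by
  unfold ws
  rw [Finset.sum_range_succ', Finset.mul_sum, add_comm]
  congr 1
  · simp
  · refine Finset.sum_congr rfl fun k _ => ?_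
    rw [Function.iterate_succ_apply, pow_succ]
    ring

/-- the transfer function: `f - A_m f` is a coboundary -/
def tr (T : X → X) (w : ℂ) (f : X → ℂ) (m : ℕ) (x : X) : ℂ :=
  (∑ k ∈ Finset.range m, ws T w f k x) / m

omit [MeasurableSpace X] in
theorem tr_spec (T : X → X) (w : ℂ) (f : X → ℂ) {m : ℕ} (hm : 1 ≤ m) (x : X) :
    f x - ws T w f m x / m = tr T w f m x - w * tr T w f m (T x) := by
  have hm0 : (m : ℂ) ≠ 0 := by
    have : m ≠ 0 := by omega
    exact_mod_cast this
  have h1 : ∀ k, ws T w f k x - w * ws T w f k (T x) = f x - w ^ k * f (T^[k] x) := by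
    intro k
    have h2 := ws_succ' T w f k x
    have h3 : ws T w f (k + 1) x = ws T w f k x + w ^ k * f (T^[k] x) := by
      unfold ws; rw [Finset.sum_range_succ]
    have h4 : ws T w f k x + w ^ k * f (T^[k] x) = f x + w * ws T w f k (T x) := by rw [← h3, h2]
    linear_combination h4
  have h2 : ∑ k ∈ Finset.range m, ws T w f k x - w * ∑ k ∈ Finset.range m, ws T w f k (T x)
      = m * f x - ws T w f m x := by
    rw [Finset.mul_sum, ← Finset.sum_sub_distrib]
    simp only [h1]
    rw [Finset.sum_sub_distrib]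
    simp [ws]
  unfold tr
  field_simp
  linear_combination -h2

omit [MeasurableSpace X] in
theorem tr_bound (T : X → X) {w : ℂ} (hw : ‖w‖ = 1) {f : X → ℂ} {C : ℝ} (hC : ∀ x, ‖f x‖ ≤ C)
    (m : ℕ) (x : X) : ‖tr T w f m x‖ ≤ m * C := by
  have hC0 : 0 ≤ C := (norm_nonneg _).trans (hC x)
  rcases Nat.eq_zero_or_pos m with rfl | hm
  · simp [tr]
  have hm0 : (0 : ℝ) < m := by exact_mod_cast hm
  unfold tr
  rw [norm_div, Complex.norm_natCast, div_le_iff₀ hm0]
  calc ‖∑ k ∈ Finset.range m, ws T w f k x‖ ≤ ∑ k ∈ Finset.range m, (m : ℝ) * C := by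
        refine norm_sum_le_of_le _ fun k hk => (ws_bound T hw hC k x).trans ?_
        have : (k : ℝ) ≤ m := by exact_mod_cast (Finset.mem_range.mp hk).le
        exact mul_le_mul_of_nonneg_right this hC0
    _ = m * C * m := by simp; ring

/-- pointwise ergodic theorem with a phase, for bounded functions in L² -/
theorem pointwise (hT : MeasurePreserving T μ μ) {w : ℂ} (hw : ‖w‖ = 1) {f : X → ℂ}
    (hfm : Measurable f) {C : ℝ} (hC : ∀ x, ‖f x‖ ≤ C) (hf : MemLp f 2 μ) :
    ∃ g : X → ℂ, Measurable g ∧ MemLp g 2 μ ∧ (∀ᵐ x ∂μ, w * g (T x) = g x) ∧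
      ∀ᵐ x ∂μ, Tendsto (fun n : ℕ => ws T w f n x / n) atTop (𝓝 (g x)) := by
  obtain ⟨g, hgm, hg2, hgT, hlim⟩ := mean_phase hT hw hf
  refine ⟨g, hgm, hg2, hgT, ?_⟩
  -- g is invariant along the orbit
  have hgorb : ∀ᵐ x ∂μ, ∀ k : ℕ, w ^ k * g (T^[k] x) = g x := by
    rw [ae_all_iff]
    intro k
    induction k with
    | zero => exact Eventually.of_forall fun x => by simp
    | succ k ih =>
      filter_upwards [ih, (hT.iterate k).quasiMeasurePreserving.ae hgT] with x h1 h2
      rw [Function.iterate_succ_apply', pow_succ, mul_assoc, h2, h1]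
  have hgav : ∀ᵐ x ∂μ, ∀ k : ℕ, ws T w g k x = k * g x := by
    filter_upwards [hgorb] with x hx k
    unfold ws
    simp [hx]
  -- the bad set
  have hbad : ∀ c : ℝ, 0 < c →
      ∀ᵐ x ∂μ, ∃ N : ℕ, ∀ n ≥ N, ‖ws T w f n x / n - g x‖ ≤ 2 * c := by
    intro c hc
    rw [ae_iff]
    set B : Set X := {x | ¬ ∃ N : ℕ, ∀ n ≥ N, ‖ws T w f n x / n - g x‖ ≤ 2 * c} with hB
    have hle : ∀ m : ℕ, 1 ≤ m →
        μ B ≤ ENNReal.ofReal ((∫ x, ‖ws T w f m x / m - g x‖ ^ 2 ∂μ) / c ^ 2) := by
      intro m hm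
      set r : X → ℂ := fun x => ws T w f m x / m - g x with hr
      have hrm : Measurable r := ((ws_measurable hT.measurable w hfm m).div_const _).sub hgm
      have hws2 : MemLp (ws T w f m) 2 μ := by
        have : ws T w f m = ∑ k ∈ Finset.range m, fun x => w ^ k * f (T^[k] x) := by
          funext x; simp [ws]
        rw [this]
        refine memLp_finsetSum' _ fun k _ => ?_
        exact (hf.comp_measurePreserving (hT.iterate k)).const_mul _
      have hr2 : MemLp r 2 μ := by
        have h1 : MemLp (fun x => (ws T w f m x) / (m : ℂ)) 2 μ := by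
          have := hws2.const_mul ((m : ℂ)⁻¹)
          refine this.congr_norm ?_ ?_
          · exact ((ws_measurable hT.measurable w hfm m).div_const _).aestronglyMeasurable
          · exact Eventually.of_forall fun x => by
              show ‖(m : ℂ)⁻¹ * ws T w f m x‖ = ‖ws T w f m x / (m : ℂ)‖
              rw [div_eq_inv_mul]
        exact h1.sub hg2
      refine (measure_mono_ae ?_).trans (weak_two hT hw hrm hr2 hc)
      filter_upwards [hgav] with x hx hxB
      by_contra hcon
      apply hxB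
      -- the averages of r are at most c
      have hall : ∀ k : ℕ, 1 ≤ k → ‖ws T w r k x‖ ≤ k * c := by
        intro k hk
        by_contra h1
        exact hcon ⟨k, hk, not_le.mp h1⟩
      obtain ⟨N, hN⟩ := exists_nat_gt (2 * (m * C) / c)
      refine ⟨max N 1, fun n hn => ?_⟩
      have hn1 : 1 ≤ n := (le_max_right _ _).trans hn
      have hnN : (N : ℝ) ≤ n := by exact_mod_cast (le_max_left _ _).trans hn
      have hn0 : (0 : ℝ) < n := by exact_mod_cast hn1
      have hnC : (n : ℂ) ≠ 0 := by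
        have : n ≠ 0 := by omega
        exact_mod_cast this
      have hdec : f = fun x => (g x + r x) + (tr T w f m x - w * tr T w f m (T x)) := by
        funext z
        rw [← tr_spec T w f hm z]
        simp [hr]
      have h1 : ws T w f n x = (n * g x + ws T w r n x)
          + (tr T w f m x - w ^ n * tr T w f m (T^[n] x)) := by
        conv_lhs => rw [hdec]
        rw [ws_add T w (fun x => g x + r x) (fun x => tr T w f m x - w * tr T w f m (T x)),
          ws_add, ws_cob, hx]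
      have h2 : ws T w f n x / n - g x
          = (ws T w r n x + (tr T w f m x - w ^ n * tr T w f m (T^[n] x))) / n := by
        rw [h1]; field_simp; ring
      have h3 : ‖tr T w f m x - w ^ n * tr T w f m (T^[n] x)‖ ≤ 2 * (m * C) := by
        refine (norm_sub_le _ _).trans ?_
        rw [norm_mul, norm_pow, hw, one_pow, one_mul]
        linarith [tr_bound T hw hC m x, tr_bound T hw hC m (T^[n] x)]
      rw [h2, norm_div, Complex.norm_natCast, div_le_iff₀ hn0]
      refine (norm_add_le _ _).trans ?_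
      have h4 := hall n hn1
      have h5 : 2 * (m * C) ≤ n * c := by
        have : 2 * (m * C) / c < n := hN.trans_le hnN
        rw [div_lt_iff₀ hc] at this
        exact this.le
      linarith
    have hto : Tendsto (fun m : ℕ =>
        ENNReal.ofReal ((∫ x, ‖ws T w f m x / m - g x‖ ^ 2 ∂μ) / c ^ 2)) atTop (𝓝 0) := by
      have h1 := ENNReal.tendsto_ofReal (hlim.div_const (c ^ 2))
      simpa using h1
    have h0 : μ B ≤ 0 := ge_of_tendsto hto (eventually_atTop.mpr ⟨1, hle⟩)
    exact le_antisymm h0 bot_le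
  have hall : ∀ᵐ x ∂μ, ∀ j : ℕ, ∃ N : ℕ, ∀ n ≥ N,
      ‖ws T w f n x / n - g x‖ ≤ 2 * (1 / ((j : ℝ) + 1)) := by
    rw [ae_all_iff]
    exact fun j => hbad _ (by positivity)
  filter_upwards [hall] with x hx
  rw [Metric.tendsto_atTop]
  intro ε hε
  obtain ⟨j, hj⟩ := exists_nat_one_div_lt (half_pos hε)
  obtain ⟨N, hN⟩ := hx j
  refine ⟨N, fun n hn => ?_⟩
  rw [dist_eq_norm]
  have := hN n hn
  linarith

end

end Pool.Agent.PVErg
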