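import Pool.Agent.Lib_helper59.PV.NearIsoAlg

/-! Project PV (MP_b08f5f_an), block B7, part 2: the inequality. For EVERY motion in `Γ_N` the
isotropy defect of the time averages of all `N`-point observables is at most
`|θ| * √(1 - 1 / κ)`, where `κ` is the mean squared speed over its smallest value. -/

set_option autoImplicit false

namespace Pool.Agent.Lib_helper25.PV

open MeasureTheory Filter Topology Set
open scoped ComplexConjugate

noncomputable section

/-- the configuration turned by the angle `a` about the origin -/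
def turn {N : ℕ} (a : ℝ) (z : Conf N) : Conf N := fun k => Complex.exp (a * Complex.I) * z k

/-- root mean square -/
def rms {N : ℕ} (y : Conf N) : ℝ := Real.sqrt ((∑ k, ‖y k‖ ^ 2) / N)

/-- `1`-Lipschitz for the root mean square distance of configurations -/
def Lip1 {N : ℕ} (Ψ : Conf N → ℝ) : Prop := ∀ y z : Conf N, |Ψ y - Ψ z| ≤ rms (fun k => y k - z k)

/-- the mean of `Φ` over the `N` points after a turn by the angle `a` -/
def emp {N : ℕ} (Φ : ℂ → ℝ) (a : ℝ) (z : Conf N) : ℝ :=
  (∑ k, Φ (Complex.exp (a * Complex.I) * z k)) / N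

theorem B7_norm_exp (a : ℝ) : ‖Complex.exp (a * Complex.I)‖ = 1 := Complex.norm_exp_ofReal_mul_I a

theorem B7_turn_turn {N : ℕ} (a b : ℝ) (z : Conf N) : turn a (turn b z) = turn (a + b) z := by
  funext k
  unfold turn
  rw [← mul_assoc, ← Complex.exp_add]
  push_cast
  ring_nf

theorem B7_turn_zero {N : ℕ} (z : Conf N) : turn 0 z = z := by
  funext k
  unfold turn
  simp

theorem B7_rms_turn {N : ℕ} (a : ℝ) (y : Conf N) : rms (turn a y) = rms y := by
  unfold rms turn
  simp only [norm_mul, B7_norm_exp, one_mul]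

theorem B7_rms_eq {N : ℕ} (y : Conf N) :
    rms y = ‖(WithLp.toLp 2 y : EuclideanSpace ℂ (Fin N))‖ / Real.sqrt N := by
  unfold rms
  rw [EuclideanSpace.norm_eq, Real.sqrt_div (by positivity)]

theorem B7_rms_le {N : ℕ} (y : Conf N) : rms y ≤ ‖y‖ := by
  unfold rms
  rw [← Real.sqrt_sq (norm_nonneg y)]
  refine Real.sqrt_le_sqrt ?_
  rcases Nat.eq_zero_or_pos N with h | h
  · subst h
    simp
  · have hN0 : (0 : ℝ) < N := by exact_mod_cast h
    rw [div_le_iff₀ hN0]
    calc ∑ k, ‖y k‖ ^ 2 ≤ ∑ _k : Fin N, ‖y‖ ^ 2 := by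
          refine Finset.sum_le_sum fun k _ => ?_
          exact pow_le_pow_left₀ (norm_nonneg _) (norm_le_pi_norm y k) 2
      _ = ‖y‖ ^ 2 * N := by simp; ring

theorem Lip1.lip {N : ℕ} {Ψ : Conf N → ℝ} (h : Lip1 Ψ) : LipschitzWith 1 Ψ := by
  refine LipschitzWith.of_dist_le_mul fun y z => ?_
  rw [Real.dist_eq, NNReal.coe_one, one_mul, dist_eq_norm]
  exact (h y z).trans (B7_rms_le _)

/-- one-particle observables -/
theorem B7_emp_lip {N : ℕ} {Φ : ℂ → ℝ} (hΦ : LipschitzWith 1 Φ) :
    Lip1 (fun z : Conf N => (∑ k, Φ (z k)) / N) := by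
  intro y z
  show |(∑ k, Φ (y k)) / N - (∑ k, Φ (z k)) / N| ≤ _
  rw [← sub_div, ← Finset.sum_sub_distrib, abs_div, abs_of_nonneg (Nat.cast_nonneg N : (0 : ℝ) ≤ N)]
  unfold rms
  rcases Nat.eq_zero_or_pos N with h | h
  · subst h
    simp
  have hN0 : (0 : ℝ) < N := by exact_mod_cast h
  refine Real.le_sqrt_of_sq_le ?_
  have h1 : |∑ k, (Φ (y k) - Φ (z k))| ≤ ∑ k, ‖y k - z k‖ := by
    refine (Finset.abs_sum_le_sum_abs _ _).trans (Finset.sum_le_sum fun k _ => ?_)
    have h2 := hΦ.dist_le_mul (y k) (z k)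
    rw [Real.dist_eq, dist_eq_norm] at h2
    simpa using h2
  have h3 := sq_sum_le_card_mul_sum_sq (s := (Finset.univ : Finset (Fin N)))
    (f := fun k => ‖y k - z k‖)
  rw [Finset.card_univ, Fintype.card_fin] at h3
  rw [div_pow, div_le_div_iff₀ (by positivity) hN0]
  have h4 : |∑ k, (Φ (y k) - Φ (z k))| ^ 2 ≤ (∑ k, ‖y k - z k‖) ^ 2 :=
    pow_le_pow_left₀ (abs_nonneg _) h1 2
  nlinarith

/-! ### conservation laws -/

theorem B7_centre {N : ℕ} {w : ℝ → Conf N} (hw : Motion w) (t : ℝ) :
    centre (w t) = centre (w 0) := by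
  have hd : ∀ s, HasDerivAt (fun u => centre (w u)) 0 s := by
    intro s
    have h1 : HasDerivAt (fun u => ∑ i, w u i) (∑ i, vel (w s) i) s :=
      HasDerivAt.fun_sum fun i _ => (hw s).2 i
    rw [B7_sum_vel] at h1
    have h2 := h1.div_const (N : ℂ)
    rw [zero_div] at h2
    exact h2
  have hdiff : Differentiable ℝ (fun u => centre (w u)) := fun s => (hd s).differentiableAt
  exact is_const_of_deriv_eq_zero hdiff (fun s => (hd s).deriv) t 0

theorem B7_inertia {N : ℕ} {w : ℝ → Conf N} (hw : Motion w) (t : ℝ) :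
    inertia (w t) = inertia (w 0) := by
  have hd : ∀ s, HasDerivAt (fun u => inertia (w u)) 0 s := by
    intro s
    have h1 : HasDerivAt (fun u => ∑ i, conj (w u i) * w u i)
        (∑ i, (conj (vel (w s) i) * w s i + conj (w s i) * vel (w s) i)) s := by
      refine HasDerivAt.fun_sum fun i _ => ?_
      have h2 := (hw s).2 i
      have h3 : HasDerivAt (fun u => conj (w u i)) (conj (vel (w s) i)) s :=
        h2.star
      exact h3.mul h2
    have h4 : ∑ i, (conj (vel (w s) i) * w s i + conj (w s i) * vel (w s) i) = 0 := by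
      rw [Finset.sum_add_distrib]
      have h5 : ∑ i, conj (vel (w s) i) * w s i = conj (∑ i, conj (w s i) * vel (w s) i) := by
        rw [map_sum]
        refine Finset.sum_congr rfl fun i _ => ?_
        rw [map_mul, Complex.conj_conj, mul_comm]
      rw [h5, B7_virial (hw s).1]
      simp only [map_neg, map_mul, Complex.conj_I, Complex.conj_ofReal, Complex.conj_natCast]
      ring
    rw [h4] at h1
    have h6 : ∀ u, inertia (w u) = (∑ i, conj (w u i) * w u i).re := by
      intro u
      unfold inertia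
      rw [Complex.re_sum]
      refine Finset.sum_congr rfl fun i _ => ?_
      rw [← B7_normSq, Complex.ofReal_re]
    have h7 : HasDerivAt (fun u => (∑ i, conj (w u i) * w u i).re) (0 : ℂ).re s :=
      (Complex.reCLM.hasFDerivAt.comp_hasDerivAt s h1)
    rw [Complex.zero_re] at h7
    refine h7.congr_of_eventuallyEq (Eventually.of_forall fun u => h6 u)
  have hdiff : Differentiable ℝ (fun u => inertia (w u)) := fun s => (hd s).differentiableAt
  exact is_const_of_deriv_eq_zero hdiff (fun s => (hd s).deriv) t 0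

theorem B7_disc {N : ℕ} {w : ℝ → Conf N} (hw : Motion w) (t : ℝ) :
    ‖Disc (w t)‖ = ‖Disc (w 0)‖ := by
  have hd : ∀ s, HasDerivAt (fun u => conj (Disc (w u)) * Disc (w u)) 0 s := by
    intro s
    have h2 := Disc_hasDerivAt hw s
    have h3 : HasDerivAt (fun u => conj (Disc (w u)))
        (conj (-(4 * Real.pi * Kin (w s) * Complex.I) * Disc (w s))) s := h2.star
    refine (h3.mul h2).congr_deriv ?_
    simp only [map_neg, map_mul, Complex.conj_I, Complex.conj_ofReal, map_ofNat]
    ring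
  have hdiff : Differentiable ℝ (fun u => conj (Disc (w u)) * Disc (w u)) :=
    fun s => (hd s).differentiableAt
  have h1 := is_const_of_deriv_eq_zero hdiff (fun s => (hd s).deriv) t 0
  simp only [← B7_normSq] at h1
  have h2 : ‖Disc (w t)‖ ^ 2 = ‖Disc (w 0)‖ ^ 2 := by exact_mod_cast h1
  exact (pow_left_inj₀ (norm_nonneg _) (norm_nonneg _) two_ne_zero).mp h2

/-! ### continuity -/

theorem B7_w_cont {N : ℕ} {w : ℝ → Conf N} (hw : Motion w) (k : Fin N) :
    Continuous fun t => w t k :=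
  continuous_iff_continuousAt.mpr fun t => ((hw t).2 k).continuousAt

theorem B7_vel_cont {N : ℕ} {w : ℝ → Conf N} (hw : Motion w) (k : Fin N) :
    Continuous fun t => vel (w t) k := by
  unfold vel
  refine continuous_const.mul (continuous_finsetSum _ fun j hj => ?_)
  refine continuous_const.div ?_ fun t => ?_
  · exact Complex.continuous_conj.comp ((B7_w_cont hw k).sub (B7_w_cont hw j))
  · refine (map_ne_zero _).mpr (sub_ne_zero.mpr fun h => ?_)
    exact (Finset.mem_erase.mp hj).1 ((hw t).1 h).symm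

/-! ### one step -/

/-- the root mean square distance of the velocity to the rigid rotation with speed `l` -/
def dev {N : ℕ} (l : ℝ) (z : Conf N) : ℝ := rms (fun k => vel z k + Complex.I * l * z k)

theorem dev_nonneg {N : ℕ} (l : ℝ) (z : Conf N) : 0 ≤ dev l z := Real.sqrt_nonneg _

theorem B7_dev_cont {N : ℕ} {w : ℝ → Conf N} (hw : Motion w) (l : ℝ) :
    Continuous fun t => dev l (w t) := by
  have h1 := B7_w_cont hw
  have h2 := B7_vel_cont hw
  unfold dev rms
  fun_prop

theorem B7_dev_sq {N : ℕ} {z : Conf N} (hz : Function.Injective z)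
    (hI : inertia z = N) (l : ℝ) :
    dev l z ^ 2 = (Kin z - 2 * l * N * Om N + N * l ^ 2) / N := by
  unfold dev rms
  rw [Real.sq_sqrt (by positivity), B7_excess_gen hz hI]

theorem B7_step {N : ℕ} {w : ℝ → Conf N} (hw : Motion w) (l t : ℝ) {s : ℝ} (hs : 0 ≤ s) :
    rms (fun k => w (t + s) k - turn (-(l * s)) (w t) k) ≤ ∫ u in t..(t + s), dev l (w u) := by
  set h : ℝ → Conf N := fun u => turn (l * (u - t)) (w u) with hh
  set h' : ℝ → Conf N := fun u => turn (l * (u - t)) (fun k => vel (w u) k + Complex.I * l * w u k)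
    with hh'
  have hd : ∀ u, HasDerivAt h (h' u) u := by
    intro u
    refine hasDerivAt_pi.mpr fun k => ?_
    have h1 : HasDerivAt (fun u : ℝ => ((l * (u - t) : ℝ) : ℂ) * Complex.I)
        ((l : ℂ) * Complex.I) u := by
      have h2 : HasDerivAt (fun u : ℝ => (l * (u - t) : ℝ)) l u := by
        simpa using ((hasDerivAt_id u).sub_const t).const_mul l
      exact (h2.ofReal_comp).mul_const Complex.I
    have h7 := h1.cexp.mul ((hw u).2 k)
    refine h7.congr_deriv ?_
    simp only [hh', turn]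
    ring
  set L := (PiLp.continuousLinearEquiv 2 ℝ (fun _ : Fin N => ℂ)).symm with hL
  have hdL : ∀ u, HasDerivAt (fun u => L (h u)) (L (h' u)) u := fun u =>
    L.toContinuousLinearMap.hasFDerivAt.comp_hasDerivAt u (hd u)
  have hw1 := B7_w_cont hw
  have hw2 := B7_vel_cont hw
  have hc : Continuous fun u => L (h' u) := by
    refine L.continuous.comp (continuous_pi fun k => ?_)
    simp only [hh', turn]
    fun_prop
  have hnorm : ∀ y : Conf N, rms y = ‖L y‖ / Real.sqrt N := fun y => B7_rms_eq y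
  have h1 := intervalIntegral.integral_eq_sub_of_hasDerivAt (a := t) (b := t + s)
    (fun u _ => hdL u) (hc.intervalIntegrable _ _)
  have hle : t ≤ t + s := by linarith
  have h2 : rms (fun k => w (t + s) k - turn (-(l * s)) (w t) k)
      = rms (fun k => h (t + s) k - h t k) := by
    have h3 : (fun k => w (t + s) k - turn (-(l * s)) (w t) k)
        = turn (-(l * s)) (fun k => h (t + s) k - h t k) := by
      funext k
      simp only [hh, turn]
      rw [mul_sub, ← mul_assoc, ← Complex.exp_add]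
      simp
    rw [h3, B7_rms_turn]
  have h4 : L (fun k => h (t + s) k - h t k) = L (h (t + s)) - L (h t) := by
    rw [← map_sub]
    rfl
  have h5 : ∀ u, dev l (w u) = ‖L (h' u)‖ / Real.sqrt N := by
    intro u
    rw [← hnorm]
    show dev l (w u) = rms (turn _ _)
    rw [B7_rms_turn]
    rfl
  rw [h2, hnorm, h4, ← h1]
  simp only [h5]
  rw [intervalIntegral.integral_div]
  exact div_le_div_of_nonneg_right (intervalIntegral.norm_integral_le_integral_norm hle)
    (Real.sqrt_nonneg _)

theorem B7_obs_cont {N : ℕ} {w : ℝ → Conf N} (hw : Motion w) {Ψ : Conf N → ℝ} (hΨ : Lip1 Ψ)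
    (a : ℝ) : Continuous fun t => Ψ (turn a (w t)) := by
  have h1 := B7_w_cont hw
  refine hΨ.lip.continuous.comp (continuous_pi fun k => ?_)
  unfold turn
  fun_prop

theorem B7_obs_bound {N : ℕ} (hN : 1 ≤ N) {Ψ : Conf N → ℝ} (hΨ : Lip1 Ψ)
    {z : Conf N} (hI : inertia z = N) (a : ℝ) : |Ψ (turn a z) - Ψ 0| ≤ 1 := by
  have hN0 : (N : ℝ) ≠ 0 := by
    have : N ≠ 0 := by omega
    exact_mod_cast this
  refine (hΨ _ _).trans (le_of_eq ?_)
  have h1 : (fun k => turn a z k - (0 : Conf N) k) = turn a z := by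
    funext k
    simp
  rw [h1, B7_rms_turn]
  unfold rms
  have h2 : ∑ k, ‖z k‖ ^ 2 = (N : ℝ) := hI
  rw [h2, div_self hN0, Real.sqrt_one]

/-- one step of the motion against one turn -/
theorem B7_obs_step {N : ℕ} {w : ℝ → Conf N} (hw : Motion w) {Ψ : Conf N → ℝ} (hΨ : Lip1 Ψ)
    (l a t : ℝ) {s : ℝ} (hs : 0 ≤ s) :
    |Ψ (turn a (w (t + s))) - Ψ (turn (a - l * s) (w t))| ≤ ∫ u in t..(t + s), dev l (w u) := by
  refine (hΨ _ _).trans ?_
  have h1 : (fun k => turn a (w (t + s)) k - turn (a - l * s) (w t) k)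
      = turn a (fun k => w (t + s) k - turn (-(l * s)) (w t) k) := by
    funext k
    have h2 := congrFun (B7_turn_turn a (-(l * s)) (w t)) k
    rw [← sub_eq_add_neg] at h2
    rw [← h2]
    simp only [turn]
    ring
  rw [h1, B7_rms_turn]
  exact B7_step hw l t hs

/-- a window average is at most the full average -/
theorem B7_window {q : ℝ → ℝ} (hq : Continuous q) (hq0 : ∀ t, 0 ≤ q t) {s T : ℝ} (hs : 0 ≤ s)
    (_hsT : s ≤ T) : ∫ t in (0 : ℝ)..(T - s), (∫ u in t..(t + s), q u) ≤ s * ∫ u in (0 : ℝ)..T, q u := by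
  set Q : ℝ → ℝ := fun t => ∫ u in (0 : ℝ)..t, q u with hQ
  have hint : ∀ a b, IntervalIntegrable q volume a b := fun a b => hq.intervalIntegrable _ _
  have hQc : Continuous Q := intervalIntegral.continuous_primitive hint 0
  have hQm : Monotone Q := by
    intro a b hab
    have h1 : Q a + ∫ u in a..b, q u = Q b :=
      intervalIntegral.integral_add_adjacent_intervals (hint _ _) (hint _ _)
    have h2 : 0 ≤ ∫ u in a..b, q u := intervalIntegral.integral_nonneg hab fun u _ => hq0 u
    linarith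
  have hQ0 : Q 0 = 0 := intervalIntegral.integral_same
  have h1 : ∀ t, ∫ u in t..(t + s), q u = Q (t + s) - Q t := by
    intro t
    have h2 : Q t + ∫ u in t..(t + s), q u = Q (t + s) :=
      intervalIntegral.integral_add_adjacent_intervals (hint _ _) (hint _ _)
    linarith
  have hQi : ∀ a b, IntervalIntegrable Q volume a b := fun a b => hQc.intervalIntegrable _ _
  have hQs : Continuous fun t => Q (t + s) := hQc.comp (continuous_id.add continuous_const)
  simp only [h1]
  rw [intervalIntegral.integral_sub (hQs.intervalIntegrable _ _) (hQi _ _),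
    intervalIntegral.integral_comp_add_right Q, zero_add, sub_add_cancel]
  have h2 : (∫ t in (0 : ℝ)..s, Q t) + ∫ t in s..T, Q t = ∫ t in (0 : ℝ)..T, Q t :=
    intervalIntegral.integral_add_adjacent_intervals (hQi _ _) (hQi _ _)
  have h3 : (∫ t in (0 : ℝ)..(T - s), Q t) + ∫ t in (T - s)..T, Q t = ∫ t in (0 : ℝ)..T, Q t :=
    intervalIntegral.integral_add_adjacent_intervals (hQi _ _) (hQi _ _)
  have h4 : 0 ≤ ∫ t in (0 : ℝ)..s, Q t :=
    intervalIntegral.integral_nonneg hs fun u hu => by rw [← hQ0]; exact hQm hu.1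
  have h5 : ∫ t in (T - s)..T, Q t ≤ ∫ _t in (T - s)..T, Q T :=
    intervalIntegral.integral_mono_on (by linarith) (hQi _ _) intervalIntegrable_const
      fun u hu => hQm hu.2
  rw [intervalIntegral.integral_const, smul_eq_mul] at h5
  have h6 : (T - (T - s)) * Q T = s * Q T := by ring
  rw [h6] at h5
  linarith

/-- the square of an average is at most the average of the square -/
theorem B7_jensen {q : ℝ → ℝ} (hq : Continuous q) {T : ℝ} (hT : 0 < T) :
    (T⁻¹ * ∫ t in (0 : ℝ)..T, q t) ^ 2 ≤ T⁻¹ * ∫ t in (0 : ℝ)..T, q t ^ 2 := by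
  set m := T⁻¹ * ∫ t in (0 : ℝ)..T, q t with hm
  have h1 : 0 ≤ ∫ t in (0 : ℝ)..T, (q t - m) ^ 2 :=
    intervalIntegral.integral_nonneg hT.le fun u _ => sq_nonneg _
  have h2 : ∫ t in (0 : ℝ)..T, (q t - m) ^ 2
      = (∫ t in (0 : ℝ)..T, q t ^ 2) - 2 * m * (∫ t in (0 : ℝ)..T, q t) + m ^ 2 * T := by
    have h3 : ∀ t, (q t - m) ^ 2 = q t ^ 2 - 2 * m * q t + m ^ 2 := fun t => by ring
    simp only [h3]
    have hc2 : Continuous fun t => q t ^ 2 := hq.pow 2
    have hc1 : Continuous fun t => 2 * m * q t := continuous_const.mul hq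
    have h5 := intervalIntegral.integral_add (μ := volume) (a := 0) (b := T)
      (f := fun t => q t ^ 2 - 2 * m * q t) (g := fun _ => m ^ 2)
      ((hc2.sub hc1).intervalIntegrable _ _) intervalIntegrable_const
    have h6 := intervalIntegral.integral_sub (μ := volume) (a := 0) (b := T)
      (f := fun t => q t ^ 2) (g := fun t => 2 * m * q t)
      (hc2.intervalIntegrable _ _) (hc1.intervalIntegrable _ _)
    rw [h5, h6, intervalIntegral.integral_const_mul,
      intervalIntegral.integral_const, smul_eq_mul]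
    ring
  have h4 : ∫ t in (0 : ℝ)..T, q t = T * m := by rw [hm]; field_simp
  rw [h2, h4] at h1
  have h5 : T * m ^ 2 ≤ ∫ t in (0 : ℝ)..T, q t ^ 2 := by nlinarith
  calc m ^ 2 = T⁻¹ * (T * m ^ 2) := by field_simp
    _ ≤ _ := mul_le_mul_of_nonneg_left h5 (inv_pos.mpr hT).le

/-- the core estimate: averages after a turn by `l * s` -/
theorem B7_core {N : ℕ} (hN : 1 ≤ N) {w : ℝ → Conf N} (hw : Motion w) (hI : inertia (w 0) = N)
    {Ψ : Conf N → ℝ} (hΨ : Lip1 Ψ) (l a : ℝ) {s T : ℝ} (hs : 0 ≤ s) (hT : 0 < T) :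
    |(∫ t in (0 : ℝ)..T, Ψ (turn a (w t))) - ∫ t in (0 : ℝ)..T, Ψ (turn (a - l * s) (w t))|
      ≤ s * (∫ t in (0 : ℝ)..T, dev l (w t)) + 2 * s := by
  have hIt : ∀ t, inertia (w t) = N := fun t => (B7_inertia hw t).trans hI
  have hca : ∀ a, Continuous fun t => Ψ (turn a (w t)) := fun a => B7_obs_cont hw hΨ a
  have hii : ∀ a b c, IntervalIntegrable (fun t => Ψ (turn a (w t))) volume b c :=
    fun a b c => (hca a).intervalIntegrable _ _
  have hshort : ∀ c b b' : ℝ, b ≤ b' →
      |(∫ t in b..b', Ψ (turn c (w t))) - Ψ 0 * (b' - b)| ≤ b' - b := by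
    intro c b b' hbb
    have h3 : (∫ t in b..b', Ψ (turn c (w t))) - Ψ 0 * (b' - b)
        = ∫ t in b..b', (Ψ (turn c (w t)) - Ψ 0) := by
      rw [intervalIntegral.integral_sub (hii _ _ _) intervalIntegrable_const,
        intervalIntegral.integral_const, smul_eq_mul]
      ring
    rw [h3]
    have h4 := intervalIntegral.norm_integral_le_of_norm_le_const (a := b) (b := b') (C := 1)
      (f := fun t => Ψ (turn c (w t)) - Ψ 0) (fun t _ => B7_obs_bound hN hΨ (hIt t) c)
    rw [abs_of_nonneg (by linarith), one_mul] at h4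
    exact h4
  have hD0 : 0 ≤ ∫ t in (0 : ℝ)..T, dev l (w t) :=
    intervalIntegral.integral_nonneg hT.le fun u _ => dev_nonneg _ _
  set b := a - l * s with hb
  rcases le_or_gt s T with hsT | hsT
  · have h1 : (∫ t in (0 : ℝ)..T, Ψ (turn a (w t)))
        = (∫ t in (0 : ℝ)..s, Ψ (turn a (w t))) + ∫ t in (0 : ℝ)..(T - s), Ψ (turn a (w (t + s))) := by
      rw [intervalIntegral.integral_comp_add_right (fun t => Ψ (turn a (w t))), zero_add,
        sub_add_cancel]
      exact (intervalIntegral.integral_add_adjacent_intervals (hii _ _ _) (hii _ _ _)).symm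
    have h2 : (∫ t in (0 : ℝ)..T, Ψ (turn b (w t)))
        = (∫ t in (0 : ℝ)..(T - s), Ψ (turn b (w t))) + ∫ t in (T - s)..T, Ψ (turn b (w t)) :=
      (intervalIntegral.integral_add_adjacent_intervals (hii _ _ _) (hii _ _ _)).symm
    have hcs : Continuous fun t => Ψ (turn a (w (t + s))) :=
      (hca a).comp (continuous_id.add continuous_const)
    have hdc := B7_dev_cont hw l
    have hwin : Continuous fun t => ∫ u in t..(t + s), dev l (w u) := by
      have h3 : ∀ t, ∫ u in t..(t + s), dev l (w u)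
          = (∫ u in (0 : ℝ)..(t + s), dev l (w u)) - ∫ u in (0 : ℝ)..t, dev l (w u) := by
        intro t
        have h4 : (∫ u in (0 : ℝ)..t, dev l (w u)) + ∫ u in t..(t + s), dev l (w u)
            = ∫ u in (0 : ℝ)..(t + s), dev l (w u) :=
          intervalIntegral.integral_add_adjacent_intervals (hdc.intervalIntegrable _ _)
            (hdc.intervalIntegrable _ _)
        linarith
      simp only [h3]
      have h5 := intervalIntegral.continuous_primitive (μ := volume) (f := fun u => dev l (w u))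
        (fun a b => hdc.intervalIntegrable _ _) 0
      exact (h5.comp (continuous_id.add continuous_const)).sub h5
    have h3 : |(∫ t in (0 : ℝ)..(T - s), Ψ (turn a (w (t + s))))
        - ∫ t in (0 : ℝ)..(T - s), Ψ (turn b (w t))| ≤ s * ∫ t in (0 : ℝ)..T, dev l (w t) := by
      rw [← intervalIntegral.integral_sub (hcs.intervalIntegrable _ _) (hii _ _ _)]
      refine (intervalIntegral.abs_integral_le_integral_abs (by linarith)).trans ?_
      refine le_trans ?_ (B7_window hdc (fun t => dev_nonneg _ _) hs hsT)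
      refine intervalIntegral.integral_mono_on (by linarith) ?_ (hwin.intervalIntegrable _ _)
        fun t _ => B7_obs_step hw hΨ l a t hs
      exact ((hcs.sub (hca b)).abs).intervalIntegrable _ _
    have h4 := hshort a 0 s hs
    have h5 := hshort b (T - s) T (by linarith)
    rw [sub_zero] at h4
    rw [sub_sub_cancel] at h5
    rw [h1, h2]
    rw [abs_le] at h3 h4 h5 ⊢
    constructor <;> linarith [h3.1, h3.2, h4.1, h4.2, h5.1, h5.2]
  · have h4 := hshort a 0 T hT.le
    have h5 := hshort b 0 T hT.le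
    rw [sub_zero] at h4 h5
    have h6 : 0 ≤ s * ∫ t in (0 : ℝ)..T, dev l (w t) := mul_nonneg hs hD0
    rw [abs_le] at h4 h5 ⊢
    constructor <;> linarith [h4.1, h4.2, h5.1, h5.2]

/-- the mean of the squared speeds over the smallest possible value, up to the time `T` -/
def kap {N : ℕ} (w : ℝ → Conf N) (T : ℝ) : ℝ :=
  T⁻¹ * ∫ t in (0 : ℝ)..T, Kin (w t) / (N * Om N ^ 2)

theorem Om_pos {N : ℕ} (hN : 2 ≤ N) : 0 < Om N := by
  unfold Om
  have : (2 : ℝ) ≤ N := by exact_mod_cast hN
  have := Real.pi_pos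
  apply div_pos <;> linarith

theorem B7_kin_cont {N : ℕ} {w : ℝ → Conf N} (hw : Motion w) : Continuous fun t => Kin (w t) := by
  have h2 := B7_vel_cont hw
  unfold Kin
  fun_prop

theorem B7_kin_ge {N : ℕ} {z : Conf N} (hz : Function.Injective z) (hI : inertia z = N) :
    N * Om N ^ 2 ≤ Kin z := by
  have h1 := B7_excess hz hI
  have h2 : 0 ≤ ∑ i, ‖vel z i + Complex.I * Om N * z i‖ ^ 2 := by positivity
  linarith

theorem kap_ge_one {N : ℕ} (hN : 2 ≤ N) {w : ℝ → Conf N} (hw : Motion w)
    (hI : inertia (w 0) = N) {T : ℝ} (hT : 0 < T) : 1 ≤ kap w T := by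
  have hN0 : (0 : ℝ) < N := by
    have : 0 < N := by omega
    exact_mod_cast this
  have hOm := Om_pos hN
  have hIt : ∀ t, inertia (w t) = N := fun t => (B7_inertia hw t).trans hI
  unfold kap
  have h1 : ∫ _t in (0 : ℝ)..T, (1 : ℝ) ≤ ∫ t in (0 : ℝ)..T, Kin (w t) / (N * Om N ^ 2) :=
    intervalIntegral.integral_mono_on hT.le intervalIntegrable_const
      (((B7_kin_cont hw).div_const _).intervalIntegrable _ _) fun t _ => by
        rw [le_div_iff₀ (by positivity), one_mul]
        exact B7_kin_ge (hw t).1 (hIt t)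
  rw [intervalIntegral.integral_const, sub_zero, smul_eq_mul, mul_one] at h1
  calc (1 : ℝ) = T⁻¹ * T := by field_simp
    _ ≤ _ := mul_le_mul_of_nonneg_left h1 (inv_pos.mpr hT).le

/-- **The isotropy defect of EVERY time average**: for every motion in `Γ_N`, every `N`-point
observable `Ψ` which is `1`-Lipschitz for the root mean square distance, every angle and every time,
the averages of `Ψ` and of its rotation differ by at most
`|θ| * (√(1 - 1 / κ) + 2 / (Ω * κ * T))`. -/
theorem near_isotropy_ineq {N : ℕ} (hN : 2 ≤ N) {w : ℝ → Conf N} (hw : Motion w)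
    (hI : inertia (w 0) = N) {Ψ : Conf N → ℝ} (hΨ : Lip1 Ψ) (θ : ℝ) {T : ℝ} (hT : 0 < T) :
    |T⁻¹ * (∫ t in (0 : ℝ)..T, Ψ (turn θ (w t))) - T⁻¹ * ∫ t in (0 : ℝ)..T, Ψ (w t)|
      ≤ |θ| * (Real.sqrt (1 - 1 / kap w T) + 2 / (Om N * kap w T * T)) := by
  have hN1 : 1 ≤ N := by omega
  have hN0 : (0 : ℝ) < N := by exact_mod_cast hN1
  have hOm := Om_pos hN
  have hκ := kap_ge_one hN hw hI hT
  set κ := kap w T with hκdef
  have hκ0 : 0 < κ := by linarith
  have hIt : ∀ t, inertia (w t) = N := fun t => (B7_inertia hw t).trans hI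
  set l := Om N * κ with hl
  have hl0 : 0 < l := by positivity
  set s := |θ| / l with hs
  have hs0 : 0 ≤ s := by positivity
  have hOs : l * s = |θ| := by rw [hs]; field_simp
  have hcore : |(∫ t in (0 : ℝ)..T, Ψ (turn θ (w t))) - ∫ t in (0 : ℝ)..T, Ψ (w t)|
      ≤ s * (∫ t in (0 : ℝ)..T, dev l (w t)) + 2 * s := by
    rcases le_or_gt 0 θ with h | h
    · have h1 := B7_core hN1 hw hI hΨ l θ hs0 hT
      rw [hOs, abs_of_nonneg h, sub_self] at h1
      simpa only [B7_turn_zero] using h1
    · have h1 := B7_core hN1 hw hI hΨ l 0 hs0 hT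
      rw [hOs, abs_of_neg h, zero_sub, neg_neg, abs_sub_comm] at h1
      simpa only [B7_turn_zero] using h1
  -- the mean of `dev`
  have hdc := B7_dev_cont hw l
  have hkc := B7_kin_cont hw
  have hdev : T⁻¹ * ∫ t in (0 : ℝ)..T, dev l (w t) ≤ l * Real.sqrt (1 - 1 / κ) := by
    have h1 := B7_jensen hdc hT
    have h2 : T⁻¹ * ∫ t in (0 : ℝ)..T, dev l (w t) ^ 2 = l ^ 2 * (1 - 1 / κ) := by
      have h3 : ∀ t, dev l (w t) ^ 2
          = Om N ^ 2 * (Kin (w t) / (N * Om N ^ 2)) + (l ^ 2 - 2 * l * Om N) := by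
        intro t
        rw [B7_dev_sq (hw t).1 (hIt t)]
        field_simp
        ring
      have h4 : Continuous fun t => Om N ^ 2 * (Kin (w t) / (N * Om N ^ 2)) :=
        continuous_const.mul (hkc.div_const _)
      have h5 := intervalIntegral.integral_add (μ := volume) (a := 0) (b := T)
        (f := fun t => Om N ^ 2 * (Kin (w t) / (N * Om N ^ 2)))
        (g := fun _ => l ^ 2 - 2 * l * Om N) (h4.intervalIntegrable _ _) intervalIntegrable_const
      simp only [h3]
      rw [h5, intervalIntegral.integral_const_mul, intervalIntegral.integral_const, smul_eq_mul,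
        sub_zero]
      have h6 : ∫ t in (0 : ℝ)..T, Kin (w t) / (N * Om N ^ 2) = T * κ := by
        rw [hκdef]; unfold kap; field_simp
      rw [h6, hl]
      field_simp
      ring
    rw [h2] at h1
    have h4 : T⁻¹ * ∫ t in (0 : ℝ)..T, dev l (w t) ≤ Real.sqrt (l ^ 2 * (1 - 1 / κ)) :=
      Real.le_sqrt_of_sq_le h1
    rwa [Real.sqrt_mul (sq_nonneg _), Real.sqrt_sq hl0.le] at h4
  rw [← mul_sub, abs_mul, abs_of_pos (inv_pos.mpr hT)]
  calc T⁻¹ * |(∫ t in (0 : ℝ)..T, Ψ (turn θ (w t))) - ∫ t in (0 : ℝ)..T, Ψ (w t)|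
      ≤ T⁻¹ * (s * (∫ t in (0 : ℝ)..T, dev l (w t)) + 2 * s) :=
        mul_le_mul_of_nonneg_left hcore (inv_pos.mpr hT).le
    _ = s * (T⁻¹ * ∫ t in (0 : ℝ)..T, dev l (w t)) + 2 * s / T := by field_simp
    _ ≤ s * (l * Real.sqrt (1 - 1 / κ)) + 2 * s / T := by
        gcongr
    _ = |θ| * (Real.sqrt (1 - 1 / κ) + 2 / (l * T)) := by
        rw [hs]; field_simp
    _ = |θ| * (Real.sqrt (1 - 1 / κ) + 2 / (Om N * κ * T)) := by rw [hl]

/-- the same for one-particle observables: the averaged vorticity density -/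
theorem near_isotropy_ineq_one {N : ℕ} (hN : 2 ≤ N) {w : ℝ → Conf N} (hw : Motion w)
    (hI : inertia (w 0) = N) {Φ : ℂ → ℝ} (hΦ : LipschitzWith 1 Φ) (θ : ℝ) {T : ℝ} (hT : 0 < T) :
    |T⁻¹ * (∫ t in (0 : ℝ)..T, emp Φ θ (w t)) - T⁻¹ * ∫ t in (0 : ℝ)..T, (∑ k, Φ (w t k)) / N|
      ≤ |θ| * (Real.sqrt (1 - 1 / kap w T) + 2 / (Om N * kap w T * T)) :=
  near_isotropy_ineq hN hw hI (B7_emp_lip hΦ) θ hT

end

end Pool.Agent.Lib_helper25.PV
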