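import Mathlib

/-! Project PV (MP_b08f5f_an), block B3, part 1: Garsia's maximal ergodic theorem and the weak type
inequality in L² for averages with a phase. -/

set_option autoImplicit false

namespace Pool.Agent.PVErg

open MeasureTheory Filter Topology Set
open scoped ENNReal

noncomputable section

variable {X : Type*}

/-- maximal function of the Birkhoff sums of `h` up to length `n` -/
def mx (T : X → X) (h : X → ℝ) : ℕ → X → ℝ
  | 0 => fun _ => 0
  | n + 1 => fun x => max 0 (h x + mx T h n (T x))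

theorem mx_zero (T : X → X) (h : X → ℝ) (x : X) : mx T h 0 x = 0 := rfl

theorem mx_succ (T : X → X) (h : X → ℝ) (n : ℕ) (x : X) :
    mx T h (n + 1) x = max 0 (h x + mx T h n (T x)) := rfl

theorem mx_nonneg (T : X → X) (h : X → ℝ) (n : ℕ) (x : X) : 0 ≤ mx T h n x := by
  cases n with
  | zero => exact le_refl _
  | succ n => exact le_max_left _ _

theorem mx_mono (T : X → X) (h : X → ℝ) (n : ℕ) : ∀ x, mx T h n x ≤ mx T h (n + 1) x := by
  induction n with
  | zero => intro x; exact mx_nonneg T h 1 x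
  | succ n ih =>
    intro x
    rw [mx_succ, mx_succ T h (n + 1)]
    exact max_le_max le_rfl (by linarith [ih (T x)])

/-- Birkhoff sums -/
def bs (T : X → X) (h : X → ℝ) (n : ℕ) (x : X) : ℝ := ∑ k ∈ Finset.range n, h (T^[k] x)

theorem bs_succ (T : X → X) (h : X → ℝ) (n : ℕ) (x : X) :
    bs T h (n + 1) x = h x + bs T h n (T x) := by
  unfold bs
  rw [Finset.sum_range_succ']
  simp only [Function.iterate_succ_apply, Function.iterate_zero, id_eq]
  ring

theorem bs_le_mx (T : X → X) (h : X → ℝ) : ∀ (n k : ℕ), k ≤ n → ∀ x, bs T h k x ≤ mx T h n x := by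
  intro n
  induction n with
  | zero =>
    intro k hk x
    obtain rfl : k = 0 := by omega
    simp [bs, mx]
  | succ n ih =>
    intro k hk x
    cases k with
    | zero => simpa [bs] using mx_nonneg T h (n + 1) x
    | succ k =>
      rw [bs_succ, mx_succ]
      exact le_max_of_le_right (by linarith [ih k (by omega) (T x)])

variable [MeasurableSpace X] {μ : Measure X} {T : X → X}

theorem mx_measurable (hT : Measurable T) {h : X → ℝ} (hh : Measurable h) (n : ℕ) :
    Measurable (mx T h n) := by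
  induction n with
  | zero => exact measurable_const
  | succ n ih => exact measurable_const.max (hh.add (ih.comp hT))

theorem mx_integrable (hT : MeasurePreserving T μ μ) {h : X → ℝ} (hi : Integrable h μ) (n : ℕ) :
    Integrable (mx T h n) μ := by
  induction n with
  | zero => exact integrable_zero X ℝ μ
  | succ n ih =>
    exact (integrable_zero X ℝ μ).sup (hi.add (hT.integrable_comp_of_integrable ih))

/-- Garsia -/
theorem garsia (hT : MeasurePreserving T μ μ) {h : X → ℝ} (hh : Measurable h)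
    (hi : Integrable h μ) (n : ℕ) : 0 ≤ ∫ x in {x | 0 < mx T h n x}, h x ∂μ := by
  cases n with
  | zero => simp [mx_zero]
  | succ n =>
    set E : Set X := {x | 0 < mx T h (n + 1) x} with hE
    have hEm : MeasurableSet E := measurableSet_lt measurable_const (mx_measurable hT.measurable hh _)
    have hM := mx_integrable hT hi (n + 1)
    have hMT : Integrable (fun x => mx T h (n + 1) (T x)) μ := hT.integrable_comp_of_integrable hM
    rw [← integral_indicator hEm]
    have h1 : ∫ x, (mx T h (n + 1) x - mx T h (n + 1) (T x)) ∂μ = 0 := by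
      rw [integral_sub hM hMT]

      have h2 : ∫ x, mx T h (n + 1) (T x) ∂μ = ∫ x, mx T h (n + 1) x ∂μ := by
        have h3 := integral_map (μ := μ) hT.measurable.aemeasurable
          (f := mx T h (n + 1)) (mx_measurable hT.measurable hh _).aestronglyMeasurable
        rw [hT.map_eq] at h3
        exact h3.symm
      rw [h2, sub_self]
    rw [← h1]
    refine integral_mono (hM.sub hMT) (hi.indicator hEm) fun x => ?_
    by_cases hx : x ∈ E
    · rw [indicator_of_mem hx]
      have h2 : mx T h (n + 1) x = h x + mx T h n (T x) := by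
        have h3 : 0 < mx T h (n + 1) x := hx
        rw [mx_succ] at h3 ⊢
        rcases max_cases 0 (h x + mx T h n (T x)) with h4 | h4
        · rw [h4.1] at h3; exact absurd h3 (lt_irrefl _)
        · exact h4.1
      have h3 := mx_mono T h n (T x)
      show mx T h (n + 1) x - mx T h (n + 1) (T x) ≤ h x
      rw [h2]; linarith
    · rw [indicator_of_notMem hx]
      have h2 : mx T h (n + 1) x ≤ 0 := not_lt.mp hx
      have h3 := mx_nonneg T h (n + 1) (T x)
      show mx T h (n + 1) x - mx T h (n + 1) (T x) ≤ 0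
      linarith

theorem bs_measurable (hT : Measurable T) {h : X → ℝ} (hh : Measurable h) (n : ℕ) :
    Measurable (bs T h n) := by
  unfold bs
  exact Finset.measurable_sum _ fun k _ => hh.comp (hT.iterate k)

/-- maximal inequality, weak type (1,1), finitely many averages -/
theorem weak_fin (hT : MeasurePreserving T μ μ) {h : X → ℝ} (hh : Measurable h)
    (h0 : ∀ x, 0 ≤ h x) (hi : Integrable h μ) {c : ℝ} (hc : 0 < c) (n : ℕ) :
    μ {x | ∃ k : ℕ, 1 ≤ k ∧ k ≤ n ∧ (k : ℝ) * c < bs T h k x} ≤ ENNReal.ofReal ((∫ x, h x ∂μ) / c) := by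
  set B : Set X := {x | ∃ k : ℕ, 1 ≤ k ∧ k ≤ n ∧ (k : ℝ) * c < bs T h k x} with hB
  have hBm : MeasurableSet B := by
    have : B = ⋃ k ∈ {k : ℕ | 1 ≤ k ∧ k ≤ n}, {x | (k : ℝ) * c < bs T h k x} := by
      ext x; simp [hB, and_assoc]
    rw [this]
    exact MeasurableSet.biUnion (to_countable _) fun k _ =>
      measurableSet_lt measurable_const (bs_measurable hT.measurable hh k)
  -- finiteness
  have hfin : μ B < ∞ := by
    have hsub : B ⊆ ⋃ j : Fin n, (T^[(j : ℕ)]) ⁻¹' {x | c < ‖h x‖} := by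
      rintro x ⟨k, hk1, hkn, hk⟩
      by_contra hcon
      have hall : ∀ j < k, h (T^[j] x) ≤ c := by
        intro j hj
        by_contra h1
        apply hcon
        refine mem_iUnion.mpr ⟨⟨j, by omega⟩, ?_⟩
        show c < ‖h (T^[j] x)‖
        rw [Real.norm_of_nonneg (h0 _)]
        exact not_le.mp h1
      have : bs T h k x ≤ (k : ℝ) * c := by
        unfold bs
        calc ∑ j ∈ Finset.range k, h (T^[j] x) ≤ ∑ j ∈ Finset.range k, c :=
              Finset.sum_le_sum fun j hj => hall j (Finset.mem_range.mp hj)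
          _ = (k : ℝ) * c := by simp
      linarith
    refine (measure_mono hsub).trans_lt ?_
    refine (measure_iUnion_le _).trans_lt ?_
    rw [tsum_fintype]
    refine ENNReal.sum_lt_top.mpr fun j _ => ?_
    have hms : MeasurableSet {x | c < ‖h x‖} := measurableSet_lt measurable_const hh.norm
    rw [(hT.iterate j).measure_preimage hms.nullMeasurableSet]
    exact hi.measure_norm_gt_lt_top hc
  -- the function
  set f : X → ℝ := fun x => h x - B.indicator (fun _ => c) x with hf
  have hind : Integrable (B.indicator (fun _ : X => c)) μ :=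
    (integrable_indicator_iff hBm).mpr (integrableOn_const hfin.ne)
  have hfm : Measurable f := hh.sub (measurable_const.indicator hBm)
  have hfi : Integrable f μ := hi.sub hind
  have hg := garsia hT hfm hfi n
  set E : Set X := {x | 0 < mx T f n x} with hE
  have hEm : MeasurableSet E := measurableSet_lt measurable_const (mx_measurable hT.measurable hfm _)
  have hBE : B ⊆ E := by
    rintro x ⟨k, hk1, hkn, hk⟩
    have h1 : bs T h k x - (k : ℝ) * c ≤ bs T f k x := by
      unfold bs
      have : ∑ j ∈ Finset.range k, f (T^[j] x) = ∑ j ∈ Finset.range k, h (T^[j] x)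
          - ∑ j ∈ Finset.range k, B.indicator (fun _ => c) (T^[j] x) := by
        rw [← Finset.sum_sub_distrib]
      rw [this]
      have h2 : ∑ j ∈ Finset.range k, B.indicator (fun _ => c) (T^[j] x) ≤ (k : ℝ) * c := by
        calc ∑ j ∈ Finset.range k, B.indicator (fun _ => c) (T^[j] x)
            ≤ ∑ j ∈ Finset.range k, c := Finset.sum_le_sum fun j _ =>
              indicator_le_self' (fun _ _ => hc.le) _
          _ = (k : ℝ) * c := by simp
      linarith
    have h2 := bs_le_mx T f n k hkn x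
    show 0 < mx T f n x
    linarith
  have h1 : ∫ x in E, f x ∂μ = ∫ x in E, h x ∂μ - ∫ x in E, B.indicator (fun _ => c) x ∂μ :=
    integral_sub hi.integrableOn hind.integrableOn
  have h2 : ∫ x in E, B.indicator (fun _ => c) x ∂μ = c * μ.real B := by
    rw [integral_indicator hBm, Measure.restrict_restrict hBm, inter_eq_left.mpr hBE,
      setIntegral_const, smul_eq_mul, mul_comm]
  have h3 : ∫ x in E, h x ∂μ ≤ ∫ x, h x ∂μ :=
    setIntegral_le_integral hi (Eventually.of_forall h0)
  have h4 : c * μ.real B ≤ ∫ x, h x ∂μ := by linarith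
  have h5 : μ.real B ≤ (∫ x, h x ∂μ) / c := by rw [le_div_iff₀ hc]; linarith
  rw [← ofReal_measureReal hfin.ne]
  exact ENNReal.ofReal_le_ofReal h5

/-- maximal inequality, weak type (1,1) -/
theorem weak_one (hT : MeasurePreserving T μ μ) {h : X → ℝ} (hh : Measurable h)
    (h0 : ∀ x, 0 ≤ h x) (hi : Integrable h μ) {c : ℝ} (hc : 0 < c) :
    μ {x | ∃ k : ℕ, 1 ≤ k ∧ (k : ℝ) * c < bs T h k x} ≤ ENNReal.ofReal ((∫ x, h x ∂μ) / c) := by
  have h1 : {x | ∃ k : ℕ, 1 ≤ k ∧ (k : ℝ) * c < bs T h k x}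
      = ⋃ n : ℕ, {x | ∃ k : ℕ, 1 ≤ k ∧ k ≤ n ∧ (k : ℝ) * c < bs T h k x} := by
    ext x
    simp only [mem_ofPred_eq, mem_iUnion]
    constructor
    · rintro ⟨k, h1, h2⟩; exact ⟨k, k, h1, le_rfl, h2⟩
    · rintro ⟨n, k, h1, h2, h3⟩; exact ⟨k, h1, h3⟩
  have hmono : Monotone fun n : ℕ => {x | ∃ k : ℕ, 1 ≤ k ∧ k ≤ n ∧ (k : ℝ) * c < bs T h k x} := by
    intro m n hmn x
    rintro ⟨k, h1, h2, h3⟩
    exact ⟨k, h1, h2.trans hmn, h3⟩
  rw [h1, hmono.measure_iUnion]
  exact iSup_le fun n => weak_fin hT hh h0 hi hc n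

/-- sums with a phase -/
def ws (T : X → X) (w : ℂ) (f : X → ℂ) (n : ℕ) (x : X) : ℂ :=
  ∑ k ∈ Finset.range n, w ^ k * f (T^[k] x)

theorem ws_measurable (hT : Measurable T) (w : ℂ) {f : X → ℂ} (hf : Measurable f) (n : ℕ) :
    Measurable (ws T w f n) := by
  unfold ws
  exact Finset.measurable_sum _ fun k _ => (hf.comp (hT.iterate k)).const_mul _

/-- maximal inequality in L² for the averages with a phase -/
theorem weak_two (hT : MeasurePreserving T μ μ) {w : ℂ} (hw : ‖w‖ = 1) {r : X → ℂ}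
    (hr : Measurable r) (hr2 : MemLp r 2 μ) {c : ℝ} (hc : 0 < c) :
    μ {x | ∃ k : ℕ, 1 ≤ k ∧ (k : ℝ) * c < ‖ws T w r k x‖}
      ≤ ENNReal.ofReal ((∫ x, ‖r x‖ ^ 2 ∂μ) / c ^ 2) := by
  have hi : Integrable (fun x => ‖r x‖ ^ 2) μ := hr2.integrable_norm_pow (by norm_num)
  refine (measure_mono ?_).trans (weak_one hT (h := fun x => ‖r x‖ ^ 2) (hr.norm.pow_const 2)
    (fun x => by positivity) hi (c := c ^ 2) (by positivity))
  rintro x ⟨k, hk, hx⟩
  refine ⟨k, hk, ?_⟩
  have hk0 : (0 : ℝ) < k := by exact_mod_cast hk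
  have h1 : ‖ws T w r k x‖ ≤ ∑ j ∈ Finset.range k, ‖r (T^[j] x)‖ := by
    unfold ws
    refine (norm_sum_le _ _).trans (Finset.sum_le_sum fun j _ => ?_)
    rw [norm_mul, norm_pow, hw, one_pow, one_mul]
  have h2 : (∑ j ∈ Finset.range k, ‖r (T^[j] x)‖) ^ 2
      ≤ (k : ℝ) * ∑ j ∈ Finset.range k, ‖r (T^[j] x)‖ ^ 2 := by
    have := sq_sum_le_card_mul_sum_sq (s := Finset.range k) (f := fun j => ‖r (T^[j] x)‖)
    simpa using this
  have h3 : (k : ℝ) * c < ∑ j ∈ Finset.range k, ‖r (T^[j] x)‖ := hx.trans_le h1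
  have h4 : ((k : ℝ) * c) ^ 2 < (∑ j ∈ Finset.range k, ‖r (T^[j] x)‖) ^ 2 :=
    pow_lt_pow_left₀ h3 (by positivity) (by norm_num)
  have h5 : ((k : ℝ) * c) ^ 2 < (k : ℝ) * ∑ j ∈ Finset.range k, ‖r (T^[j] x)‖ ^ 2 := h4.trans_le h2
  have h6 : (k : ℝ) * ((k : ℝ) * c ^ 2) < (k : ℝ) * ∑ j ∈ Finset.range k, ‖r (T^[j] x)‖ ^ 2 := by
    nlinarith
  show (k : ℝ) * c ^ 2 < bs T (fun x => ‖r x‖ ^ 2) k x
  exact lt_of_mul_lt_mul_left h6 hk0.le

end

end Pool.Agent.PVErg
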