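import Pool.Agent.Lib_helper59.PV.NearIsoCore

/-! Project PV (MP_b08f5f_an), block B7, part 3: an open set of `Γ_N` on which all time averages are
isotropic up to `ε`. -/

set_option autoImplicit false

namespace Pool.Agent.Lib_helper25.PV

open MeasureTheory Filter Topology Set
open scoped ComplexConjugate

noncomputable section

/-- the moment about the centre -/
def moment {N : ℕ} (z : Conf N) : ℝ := ∑ i, ‖z i - centre z‖ ^ 2

/-- `Γ_N` of the problem, as a set of configurations (collisions not yet removed) -/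
def Gam (N : ℕ) : Set (Conf N) := {z | centre z = 0 ∧ inertia z = N}

/-! ### symmetries of the product of the differences and of the moment -/

theorem B7_centre_aff {N : ℕ} (hN : 1 ≤ N) (r b : ℂ) (z : Conf N) :
    centre (fun i => r * z i + b) = r * centre z + b := by
  have hN0 : (N : ℂ) ≠ 0 := by
    have : N ≠ 0 := by omega
    exact_mod_cast this
  unfold centre
  rw [Finset.sum_add_distrib, ← Finset.mul_sum]
  simp only [Finset.sum_const, Finset.card_univ, Fintype.card_fin, nsmul_eq_mul]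
  field_simp

theorem B7_moment_aff {N : ℕ} (hN : 1 ≤ N) (r b : ℂ) (z : Conf N) :
    moment (fun i => r * z i + b) = ‖r‖ ^ 2 * moment z := by
  unfold moment
  rw [B7_centre_aff hN, Finset.mul_sum]
  refine Finset.sum_congr rfl fun i _ => ?_
  have : r * z i + b - (r * centre z + b) = r * (z i - centre z) := by ring
  rw [this, norm_mul, mul_pow]

theorem B7_disc_aff {N : ℕ} (r b : ℂ) (z : Conf N) :
    Disc (fun i => r * z i + b) = r ^ (N * (N - 1)) * Disc z := by
  unfold Disc
  have h1 : ∀ i j, r * z i + b - (r * z j + b) = r * (z i - z j) := fun i j => by ring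
  simp only [h1, Finset.prod_mul_distrib, Finset.prod_const, Finset.card_erase_of_mem
    (Finset.mem_univ _), Finset.card_univ, Fintype.card_fin]
  rw [← pow_mul, mul_comm (N - 1) N]

theorem B7_disc_ne {N : ℕ} {z : Conf N} : Disc z ≠ 0 ↔ Function.Injective z := by
  unfold Disc
  rw [Finset.prod_ne_zero_iff]
  constructor
  · intro h i j hij
    by_contra hne
    have h1 := h i (Finset.mem_univ i)
    rw [Finset.prod_ne_zero_iff] at h1
    exact h1 j (Finset.mem_erase.mpr ⟨fun h => hne h.symm, Finset.mem_univ j⟩) (sub_eq_zero.mpr hij)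
  · intro h i _
    rw [Finset.prod_ne_zero_iff]
    intro j hj
    exact sub_ne_zero.mpr fun he => (Finset.mem_erase.mp hj).1 (h he).symm

theorem B7_disc_cont (N : ℕ) : Continuous (Disc (N := N)) := by
  unfold Disc
  fun_prop

theorem B7_centre_cont (N : ℕ) : Continuous (centre (N := N)) := by
  unfold centre
  fun_prop

theorem B7_moment_cont (N : ℕ) : Continuous (moment (N := N)) := by
  have := B7_centre_cont N
  unfold moment
  fun_prop

theorem B7_moment_gam {N : ℕ} {z : Conf N} (hz : z ∈ Gam N) : moment z = N := by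
  unfold moment
  rw [hz.1]
  simp only [sub_zero]
  exact hz.2

theorem B7_isOpen_NC (N : ℕ) : IsOpen (NC N) := by
  have h1 : NC N = (Disc (N := N)) ⁻¹' {0}ᶜ := by
    ext z
    exact B7_disc_ne.symm
  rw [h1]
  exact isOpen_compl_singleton.preimage (B7_disc_cont N)

theorem B7_vel_contOn {N : ℕ} (k : Fin N) : ContinuousOn (fun z : Conf N => vel z k) (NC N) := by
  unfold vel
  refine continuousOn_const.mul (continuousOn_finsetSum _ fun j hj => ?_)
  refine continuousOn_const.div ?_ fun z hz => ?_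
  · exact Continuous.continuousOn (by fun_prop)
  · refine (map_ne_zero _).mpr (sub_ne_zero.mpr fun h => ?_)
    exact (Finset.mem_erase.mp hj).1 (hz h).symm

theorem B7_kin_contOn (N : ℕ) : ContinuousOn (Kin (N := N)) (NC N) := by
  unfold Kin
  exact continuousOn_finsetSum _ fun k _ => ((B7_vel_contOn k).norm).pow 2

/-! ### compactness of `Γ_N`, normalisation -/

theorem B7_gam_compact (N : ℕ) : IsCompact (Gam N) := by
  refine Metric.isCompact_of_isClosed_isBounded ?_ ?_
  · have h1 : Continuous (inertia (N := N)) := by unfold inertia; fun_prop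
    exact (isClosed_singleton.preimage (B7_centre_cont N)).inter (isClosed_singleton.preimage h1)
  · refine (Metric.isBounded_closedBall (x := (0 : Conf N)) (r := N + 1)).subset fun z hz => ?_
    rw [mem_closedBall_zero_iff]
    refine (pi_norm_le_iff_of_nonneg (by positivity)).mpr fun i => ?_
    have h1 : ‖z i‖ ^ 2 ≤ N := by
      rw [← hz.2]
      exact Finset.single_le_sum (f := fun i => ‖z i‖ ^ 2) (fun i _ => sq_nonneg _)
        (Finset.mem_univ i)
    have h2 : (0 : ℝ) ≤ N := Nat.cast_nonneg N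
    nlinarith [norm_nonneg (z i)]

theorem B7_moment_pos {N : ℕ} (hN : 2 ≤ N) {z : Conf N} (hz : Function.Injective z) :
    0 < moment z := by
  unfold moment
  have h0 : (⟨0, by omega⟩ : Fin N) ≠ ⟨1, by omega⟩ := by simp
  have h1 : ∃ i, z i - centre z ≠ 0 := by
    by_contra h
    push Not at h
    have h2 := (sub_eq_zero.mp (h ⟨0, by omega⟩)).trans (sub_eq_zero.mp (h ⟨1, by omega⟩)).symm
    exact h0 (hz h2)
  obtain ⟨i, hi⟩ := h1
  exact Finset.sum_pos' (fun i _ => sq_nonneg _) ⟨i, Finset.mem_univ i, by positivity⟩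

/-- the normalised configuration -/
def nrm {N : ℕ} (z : Conf N) : Conf N := fun i =>
  ((Real.sqrt (N / moment z) : ℝ) : ℂ) * z i + -(((Real.sqrt (N / moment z) : ℝ) : ℂ) * centre z)

theorem B7_nrm_mem {N : ℕ} (hN : 2 ≤ N) {z : Conf N} (hz : Function.Injective z) :
    nrm z ∈ Gam N := by
  have hm := B7_moment_pos hN hz
  have hN1 : 1 ≤ N := by omega
  have hc : centre (nrm z) = 0 := by
    unfold nrm
    rw [B7_centre_aff hN1]
    ring
  refine ⟨hc, ?_⟩
  have h1 : moment (nrm z) = inertia (nrm z) := by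
    unfold moment inertia
    rw [hc]
    simp
  rw [← h1]
  unfold nrm
  rw [B7_moment_aff hN1, Complex.norm_real, Real.norm_eq_abs, sq_abs,
    Real.sq_sqrt (by positivity)]
  field_simp

theorem B7_nrm_disc {N : ℕ} (z : Conf N) :
    ‖Disc (nrm z)‖ ^ 2 = (N / moment z) ^ (N * (N - 1)) * ‖Disc z‖ ^ 2 := by
  have hm : 0 ≤ moment z := by unfold moment; positivity
  unfold nrm
  rw [B7_disc_aff, norm_mul, norm_pow, Complex.norm_real, Real.norm_eq_abs, mul_pow, ← pow_mul,
    mul_comm (N * (N - 1)) 2, pow_mul, sq_abs, Real.sq_sqrt (by positivity)]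

/-! ### the product of the differences along a curve -/

theorem Disc_curve {N : ℕ} {γ : ℝ → Conf N} {v : Conf N} {t : ℝ}
    (h : ∀ i, HasDerivAt (fun s => γ s i) (v i) t) (hinj : Function.Injective (γ t)) :
    HasDerivAt (fun s => Disc (γ s))
      ((2 * ∑ i : Fin N, v i * ∑ j ∈ Finset.univ.erase i, 1 / (γ t i - γ t j)) * Disc (γ t)) t := by
  have h1 := B7_prod_log Finset.univ
    (fun i : Fin N => fun u => ∏ j ∈ Finset.univ.erase i, (γ u i - γ u j))
    (fun i => ∑ j ∈ Finset.univ.erase i, (v i - v j) / (γ t i - γ t j)) t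
    (fun i _ => by
      refine B7_prod_log (Finset.univ.erase i) (fun j : Fin N => fun u => γ u i - γ u j)
        (fun j => (v i - v j) / (γ t i - γ t j)) t fun j hj => ?_
      have hne : γ t i - γ t j ≠ 0 :=
        sub_ne_zero.mpr fun h => (Finset.mem_erase.mp hj).1 (hinj h).symm
      have h2 := (h i).sub (h j)
      refine h2.congr_deriv ?_
      field_simp)
  refine h1.congr_deriv ?_
  show _ * Disc (γ t) = _
  congr 1
  have h3 : ∑ i : Fin N, ∑ j ∈ Finset.univ.erase i, (v i - v j) / (γ t i - γ t j)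
      = ∑ i : Fin N, ∑ j ∈ Finset.univ.erase i, v i / (γ t i - γ t j)
        - ∑ i : Fin N, ∑ j ∈ Finset.univ.erase i, v j / (γ t i - γ t j) := by
    rw [← Finset.sum_sub_distrib]
    refine Finset.sum_congr rfl fun i _ => ?_
    rw [← Finset.sum_sub_distrib]
    refine Finset.sum_congr rfl fun j _ => ?_
    rw [sub_div]
  have h4 := B7_swap (fun i j : Fin N => v j / (γ t i - γ t j))
  have h5 : ∑ i : Fin N, ∑ j ∈ Finset.univ.erase i, v i / (γ t j - γ t i)
      = -∑ i : Fin N, ∑ j ∈ Finset.univ.erase i, v i / (γ t i - γ t j) := by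
    rw [← Finset.sum_neg_distrib]
    refine Finset.sum_congr rfl fun i _ => ?_
    rw [← Finset.sum_neg_distrib]
    refine Finset.sum_congr rfl fun j _ => ?_
    rw [← neg_sub (γ t i) (γ t j), div_neg]
  have h6 : ∑ i : Fin N, v i * ∑ j ∈ Finset.univ.erase i, 1 / (γ t i - γ t j)
      = ∑ i : Fin N, ∑ j ∈ Finset.univ.erase i, v i / (γ t i - γ t j) := by
    refine Finset.sum_congr rfl fun i _ => ?_
    rw [Finset.mul_sum]
    refine Finset.sum_congr rfl fun j _ => ?_
    ring
  rw [h3, h4, h5, h6]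
  ring

/-- a configuration of `Γ_N` with the largest product of differences rotates rigidly -/
theorem B7_critical {N : ℕ} (hN : 2 ≤ N) {z : Conf N} (hz : z ∈ Gam N)
    (hinj : Function.Injective z) (hmax : ∀ y ∈ Gam N, ‖Disc y‖ ^ 2 ≤ ‖Disc z‖ ^ 2) (k : Fin N) :
    vel z k + Complex.I * Om N * z k = 0 := by
  have hN1 : 1 ≤ N := by omega
  have hN0 : (0 : ℝ) < N := by exact_mod_cast hN1
  have hpi : (Real.pi : ℂ) ≠ 0 := by exact_mod_cast Real.pi_ne_zero
  set v : Conf N := fun i => 2 * Real.pi * Complex.I * (vel z i + Complex.I * Om N * z i) with hv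
  set V : ℝ := ∑ i, ‖v i‖ ^ 2 with hV
  have hcz : ∑ i, z i = 0 := by
    have h1 := hz.1
    unfold centre at h1
    rcases div_eq_zero_iff.mp h1 with h | h
    · exact h
    · have : (N : ℂ) ≠ 0 := by exact_mod_cast hN0.ne'
      exact absurd h this
  have hsv : ∑ i, v i = 0 := by
    simp only [hv, ← Finset.mul_sum, Finset.sum_add_distrib]
    rw [B7_sum_vel, hcz]
    ring
  have hzz : ∑ i, conj (z i) * z i = (N : ℂ) := by
    have h1 : ∑ i, ‖z i‖ ^ 2 = (N : ℝ) := hz.2
    have h2 : ((∑ i, ‖z i‖ ^ 2 : ℝ) : ℂ) = (N : ℂ) := by rw [h1]; push_cast; rfl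
    rw [← h2, Complex.ofReal_sum]
    exact Finset.sum_congr rfl fun i _ => (B7_normSq _).symm
  have hzv : ∑ i, conj (z i) * v i = 0 := by
    have h1 : ∑ i, conj (z i) * v i = 2 * Real.pi * Complex.I *
        (∑ i, conj (z i) * vel z i + Complex.I * Om N * ∑ i, conj (z i) * z i) := by
      rw [Finset.mul_sum, ← Finset.sum_add_distrib, Finset.mul_sum]
      refine Finset.sum_congr rfl fun i _ => ?_
      simp only [hv]
      ring
    rw [h1, B7_virial hinj, hzz]
    ring
  -- the curve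
  set γ : ℝ → Conf N := fun s i => z i + s * v i with hγ
  have hγ0 : γ 0 = z := by funext i; simp [hγ]
  have hd : ∀ i, HasDerivAt (fun s => γ s i) (v i) 0 := by
    intro i
    have h1 : HasDerivAt (fun s : ℝ => ((s : ℝ) : ℂ)) 1 0 := Complex.ofRealCLM.hasDerivAt
    have h2 := (h1.mul_const (v i)).const_add (z i)
    rw [one_mul] at h2
    exact h2
  have hcγ : ∀ s, centre (γ s) = 0 := by
    intro s
    unfold centre
    simp only [hγ, Finset.sum_add_distrib, ← Finset.mul_sum]
    rw [hcz, hsv]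
    simp
  have hmγ : ∀ s, moment (γ s) = N + s ^ 2 * V := by
    intro s
    have h1 : ((moment (γ s) : ℝ) : ℂ) = ((N + s ^ 2 * V : ℝ) : ℂ) := by
      unfold moment
      rw [hcγ, Complex.ofReal_sum]
      have h2 : ∀ i, ((‖γ s i - 0‖ ^ 2 : ℝ) : ℂ) = conj (z i) * z i
          + s * (conj (z i) * v i) + s * conj (conj (z i) * v i)
          + s ^ 2 * ((‖v i‖ ^ 2 : ℝ) : ℂ) := by
        intro i
        rw [B7_normSq, B7_normSq, sub_zero]
        simp only [hγ, map_add, map_mul, Complex.conj_ofReal, Complex.conj_conj]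
        ring
      rw [Finset.sum_congr rfl fun i _ => h2 i, Finset.sum_add_distrib, Finset.sum_add_distrib,
        Finset.sum_add_distrib, ← Finset.mul_sum, ← Finset.mul_sum, ← Finset.mul_sum, ← map_sum,
        hzv, hzz, ← Complex.ofReal_sum, ← hV, map_zero]
      push_cast
      ring
    exact_mod_cast h1
  -- derivative of the squared product
  have hinj0 : Function.Injective (γ 0) := by rw [hγ0]; exact hinj
  have hD := Disc_curve hd hinj0
  have hS : ∀ i, ∑ j ∈ Finset.univ.erase i, 1 / (z i - z j)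
      = conj (v i) + 2 * Real.pi * Om N * conj (z i) := by
    intro i
    have h8 := B7_vel_eq z i
    have h9 : conj (vel z i)
        = (Complex.I / (2 * Real.pi)) * ∑ j ∈ Finset.univ.erase i, 1 / (z i - z j) := by
      rw [h8]
      simp only [map_mul, map_neg, map_div₀, Complex.conj_I, Complex.conj_ofReal, Complex.conj_conj,
        map_ofNat]
      ring
    simp only [hv, map_mul, map_add, Complex.conj_I, Complex.conj_ofReal, map_ofNat]
    rw [h9]
    field_simp
    ring_nf
    rw [Complex.I_sq]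
    ring
  have hsum : ∑ i : Fin N, v i * ∑ j ∈ Finset.univ.erase i, 1 / (z i - z j) = (V : ℂ) := by
    have h1 : ∀ i : Fin N, v i * ∑ j ∈ Finset.univ.erase i, 1 / (z i - z j)
        = ((‖v i‖ ^ 2 : ℝ) : ℂ) + 2 * Real.pi * Om N * (conj (z i) * v i) := by
      intro i
      rw [hS i, B7_normSq]
      ring
    rw [Finset.sum_congr rfl fun i _ => h1 i, Finset.sum_add_distrib, ← Finset.mul_sum, hzv,
      mul_zero, add_zero, ← Complex.ofReal_sum]
  rw [hγ0, hsum] at hD
  have hF : HasDerivAt (fun s => ‖Disc (γ s)‖ ^ 2) (4 * V * ‖Disc z‖ ^ 2) 0 := by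
    have h2 : HasDerivAt (fun s => conj (Disc (γ s))) (conj (2 * (V : ℂ) * Disc z)) 0 := hD.star
    have h3 := h2.mul hD
    have h4 : HasDerivAt (fun s => (conj (Disc (γ s)) * Disc (γ s)).re)
        (conj (2 * (V : ℂ) * Disc z) * Disc (γ 0) + conj (Disc (γ 0)) * (2 * (V : ℂ) * Disc z)).re 0 :=
      (Complex.reCLM.hasFDerivAt.comp_hasDerivAt 0 h3)
    rw [hγ0] at h4
    have h5 : conj (2 * (V : ℂ) * Disc z) * Disc z + conj (Disc z) * (2 * (V : ℂ) * Disc z)
        = ((4 * V * ‖Disc z‖ ^ 2 : ℝ) : ℂ) := by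
      rw [Complex.ofReal_mul, B7_normSq]
      simp only [map_mul, Complex.conj_ofReal, map_ofNat]
      push_cast
      ring
    rw [h5, Complex.ofReal_re] at h4
    refine h4.congr_of_eventuallyEq (Eventually.of_forall fun s => ?_)
    show ‖Disc (γ s)‖ ^ 2 = (conj (Disc (γ s)) * Disc (γ s)).re
    rw [← B7_normSq, Complex.ofReal_re]
  set p := N * (N - 1) with hp
  set G : ℝ → ℝ := fun s => ‖Disc z‖ ^ 2 * (1 + s ^ 2 * (V / N)) ^ p - ‖Disc (γ s)‖ ^ 2 with hG
  have hG' : HasDerivAt G (0 - 4 * V * ‖Disc z‖ ^ 2) 0 := by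
    refine HasDerivAt.sub ?_ hF
    have h1 : HasDerivAt (fun s : ℝ => 1 + s ^ 2 * (V / N)) 0 0 := by
      have h2 : HasDerivAt (fun s : ℝ => s ^ 2) 0 0 := by simpa using hasDerivAt_pow 2 (0 : ℝ)
      have h3 := (h2.mul_const (V / N)).const_add 1
      simpa using h3
    have h4 := (h1.fun_pow p).const_mul (‖Disc z‖ ^ 2)
    simpa using h4
  have hV0 : 0 ≤ V := by rw [hV]; positivity
  have hmin : IsLocalMin G 0 := by
    refine Eventually.of_forall fun s => ?_
    have hG0 : G 0 = 0 := by simp [hG, hγ0]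
    rw [hG0]
    show 0 ≤ ‖Disc z‖ ^ 2 * (1 + s ^ 2 * (V / N)) ^ p - ‖Disc (γ s)‖ ^ 2
    rw [sub_nonneg]
    by_cases hs : Function.Injective (γ s)
    · have h1 := hmax _ (B7_nrm_mem hN hs)
      rw [B7_nrm_disc, hmγ] at h1
      have h2 : 0 < (N : ℝ) + s ^ 2 * V := by positivity
      have h3 : (1 + s ^ 2 * (V / N)) ^ p * (N / (N + s ^ 2 * V)) ^ p = (1 : ℝ) := by
        rw [← mul_pow]
        have : (1 + s ^ 2 * (V / N)) * (N / (N + s ^ 2 * V)) = 1 := by field_simp
        rw [this, one_pow]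
      have h4 : 0 ≤ (1 + s ^ 2 * (V / N)) ^ p := by positivity
      calc ‖Disc (γ s)‖ ^ 2 = (1 + s ^ 2 * (V / N)) ^ p * ((N / (N + s ^ 2 * V)) ^ p
            * ‖Disc (γ s)‖ ^ 2) := by rw [← mul_assoc, h3, one_mul]
        _ ≤ (1 + s ^ 2 * (V / N)) ^ p * ‖Disc z‖ ^ 2 := mul_le_mul_of_nonneg_left h1 h4
        _ = _ := mul_comm _ _
    · have h1 : Disc (γ s) = 0 := by
        by_contra h
        exact hs (B7_disc_ne.mp h)
      rw [h1, norm_zero, zero_pow two_ne_zero]
      positivity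
  have h0 := hmin.hasDerivAt_eq_zero hG'
  have hDz : 0 < ‖Disc z‖ ^ 2 := by
    have := B7_disc_ne.mpr hinj
    positivity
  have hVz : V = 0 := by nlinarith
  have h1 : ‖v k‖ ^ 2 = 0 := by
    have h2 : ‖v k‖ ^ 2 ≤ V := Finset.single_le_sum (f := fun i => ‖v i‖ ^ 2)
      (fun i _ => sq_nonneg _) (Finset.mem_univ k)
    exact le_antisymm (h2.trans hVz.le) (sq_nonneg _)
  have h2 : v k = 0 := by
    rw [← norm_eq_zero]
    exact pow_eq_zero_iff two_ne_zero |>.mp h1
  simp only [hv] at h2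
  rcases mul_eq_zero.mp h2 with h3 | h3
  · exfalso
    have : (2 : ℂ) * Real.pi * Complex.I ≠ 0 :=
      mul_ne_zero (mul_ne_zero two_ne_zero hpi) Complex.I_ne_zero
    exact this h3
  · exact h3

theorem B7_kin_max {N : ℕ} (hN : 2 ≤ N) {z : Conf N} (hz : z ∈ Gam N)
    (hinj : Function.Injective z) (hmax : ∀ y ∈ Gam N, ‖Disc y‖ ^ 2 ≤ ‖Disc z‖ ^ 2) :
    Kin z = N * Om N ^ 2 := by
  have h1 := B7_excess hinj hz.2
  have h2 : ∑ i, ‖vel z i + Complex.I * Om N * z i‖ ^ 2 = 0 := by
    refine Finset.sum_eq_zero fun i _ => ?_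
    rw [B7_critical hN hz hinj hmax i]
    simp
  linarith

/-- the neighbourhood -/
def Near (N : ℕ) (c : ℝ) : Set (Conf N) :=
  {z | c * moment z ^ (N * (N - 1)) < ‖Disc z‖ ^ 2}

theorem B7_open {N : ℕ} (hN : 2 ≤ N) {δ : ℝ} (hδ : 0 < δ) : ∃ c : ℝ, 0 ≤ c ∧
    (Near N c ∩ Gam N).Nonempty ∧ ∀ z ∈ Near N c, z ∈ Gam N →
      Function.Injective z ∧ Kin z / (N * Om N ^ 2) - 1 < δ := by
  have hN1 : 1 ≤ N := by omega
  have hN0 : (0 : ℝ) < N := by exact_mod_cast hN1
  have hOm := Om_pos hN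
  have hFc : Continuous fun z : Conf N => ‖Disc z‖ ^ 2 := (B7_disc_cont N).norm.pow 2
  -- a maximiser
  have hinj1 : Function.Injective (fun i : Fin N => ((i : ℕ) : ℂ)) := by
    intro i j h
    have h' : ((i : ℕ) : ℂ) = ((j : ℕ) : ℂ) := h
    exact Fin.ext (by exact_mod_cast h')
  have hne : (Gam N).Nonempty := ⟨_, B7_nrm_mem hN hinj1⟩
  obtain ⟨z0, hz0, hmax0⟩ := (B7_gam_compact N).exists_isMaxOn hne hFc.continuousOn
  have hpos : 0 < ‖Disc z0‖ ^ 2 := by
    refine lt_of_lt_of_le ?_ (hmax0 (B7_nrm_mem hN hinj1))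
    show 0 < ‖Disc (nrm (fun i : Fin N => ((i : ℕ) : ℂ)))‖ ^ 2
    rw [B7_nrm_disc]
    have h1 := B7_moment_pos hN hinj1
    have h2 := B7_disc_ne.mpr hinj1
    positivity
  have hmaxinj : ∀ z ∈ Gam N, ‖Disc z0‖ ^ 2 ≤ ‖Disc z‖ ^ 2 → Function.Injective z ∧
      Kin z = N * Om N ^ 2 := by
    intro z hz hle
    have h1 : Disc z ≠ 0 := by
      intro h
      rw [h] at hle
      simp at hle
      rw [hle] at hpos
      simp at hpos
    have h2 := B7_disc_ne.mp h1
    exact ⟨h2, B7_kin_max hN hz h2 fun y hy => (hmax0 hy).trans hle⟩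
  -- the good open set
  set O : Set (Conf N) := NC N ∩ (fun z => Kin z / (N * Om N ^ 2) - 1) ⁻¹' Iio δ with hO
  have hOo : IsOpen O := by
    refine ContinuousOn.isOpen_inter_preimage ?_ (B7_isOpen_NC N) isOpen_Iio
    exact ((B7_kin_contOn N).div_const _).sub continuousOn_const
  have hmem : ∀ z ∈ Gam N, ‖Disc z0‖ ^ 2 ≤ ‖Disc z‖ ^ 2 → z ∈ O := by
    intro z hz hle
    obtain ⟨h1, h2⟩ := hmaxinj z hz hle
    refine ⟨h1, ?_⟩
    show Kin z / (N * Om N ^ 2) - 1 < δ
    rw [h2, div_self (by positivity)]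
    simpa using hδ
  have hK : IsCompact (Gam N \ O) := (B7_gam_compact N).diff hOo
  obtain ⟨m, hm0, hm1, hm⟩ : ∃ m : ℝ, 0 ≤ m ∧ m < ‖Disc z0‖ ^ 2 ∧
      ∀ z ∈ Gam N \ O, ‖Disc z‖ ^ 2 ≤ m := by
    rcases (Gam N \ O).eq_empty_or_nonempty with h | h
    · exact ⟨0, le_rfl, hpos, fun z hz => by rw [h] at hz; exact absurd hz (notMem_empty _)⟩
    · obtain ⟨z1, hz1, hmax1⟩ := hK.exists_isMaxOn h hFc.continuousOn
      refine ⟨‖Disc z1‖ ^ 2, sq_nonneg _, ?_, fun z hz => hmax1 hz⟩
      by_contra hcon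
      exact hz1.2 (hmem z1 hz1.1 (not_lt.mp hcon))
  have hgam : ∀ z ∈ Gam N, (z ∈ Near N (m / (N : ℝ) ^ (N * (N - 1))) ↔ m < ‖Disc z‖ ^ 2) := by
    intro z hz
    show m / (N : ℝ) ^ (N * (N - 1)) * moment z ^ (N * (N - 1)) < ‖Disc z‖ ^ 2 ↔ _
    rw [B7_moment_gam hz, div_mul_cancel₀ _ (by positivity)]
  refine ⟨m / (N : ℝ) ^ (N * (N - 1)), by positivity, ⟨z0, (hgam z0 hz0).mpr hm1, hz0⟩, ?_⟩
  intro z hz hzG
  have h1 := (hgam z hzG).mp hz
  have h2 : z ∈ O := by
    by_contra h
    exact absurd (hm z ⟨hzG, h⟩) (not_le.mpr h1)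
  exact ⟨h2.1, h2.2⟩

theorem B7_turn_mod {N : ℕ} (θ : ℝ) (z : Conf N) :
    turn (θ - round (θ / (2 * Real.pi)) * (2 * Real.pi)) z = turn θ z := by
  unfold turn
  have h1 : Complex.exp ((θ - round (θ / (2 * Real.pi)) * (2 * Real.pi) : ℝ) * Complex.I)
      = Complex.exp (θ * Complex.I) := by
    push_cast
    rw [sub_mul, Complex.exp_sub]
    have h2 : ((round (θ / (2 * Real.pi)) : ℤ) : ℂ) * (2 * Real.pi) * Complex.I
        = (round (θ / (2 * Real.pi)) : ℤ) * (2 * Real.pi * Complex.I) := by ring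
    rw [h2, Complex.exp_int_mul_two_pi_mul_I, div_one]
  rw [h1]

/-- **Near isotropy on an open part of `Γ_N`**: for every `N ≥ 2` and `ε > 0` there are an open set
`U` of configurations without collision, invariant under translations, dilations and rotations,
which meets `Γ_N`, and a time `T₀`, such that for EVERY motion that starts in `U ∩ Γ_N` all time
averages over times `T ≥ T₀` are isotropic up to `ε`: for every angle and every `N`-point observable
which is `1`-Lipschitz for the root mean square distance. -/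
theorem near_isotropy {N : ℕ} (hN : 2 ≤ N) {ε : ℝ} (hε : 0 < ε) :
    ∃ (U : Set (Conf N)) (T₀ : ℝ), IsOpen U ∧
      (∀ z ∈ U, Function.Injective z) ∧
      (∀ z ∈ U, ∀ r b : ℂ, r ≠ 0 → (fun i => r * z i + b) ∈ U) ∧
      (∃ z ∈ U, centre z = 0 ∧ inertia z = N) ∧
      ∀ w : ℝ → Conf N, Motion w → w 0 ∈ U → centre (w 0) = 0 → inertia (w 0) = N →
        ∀ Ψ : Conf N → ℝ, Lip1 Ψ → ∀ θ T : ℝ, T₀ ≤ T →
          |T⁻¹ * (∫ t in (0 : ℝ)..T, Ψ (turn θ (w t))) - T⁻¹ * ∫ t in (0 : ℝ)..T, Ψ (w t)|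
            ≤ ε := by
  have hN1 : 1 ≤ N := by omega
  have hOm := Om_pos hN
  have hpi := Real.pi_pos
  set δ : ℝ := (ε / (2 * Real.pi)) ^ 2 with hδ
  have hδ0 : 0 < δ := by positivity
  obtain ⟨c, hc0, ⟨z1, hz1, hz1G⟩, hc⟩ := B7_open hN hδ0
  have hmpos : ∀ z ∈ Near N c, Function.Injective z := by
    intro z hz
    refine B7_disc_ne.mp fun h => ?_
    have h1 : c * moment z ^ (N * (N - 1)) < ‖Disc z‖ ^ 2 := hz
    rw [h, norm_zero] at h1
    have h2 : 0 ≤ moment z := by unfold moment; positivity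
    have h3 : 0 ≤ c * moment z ^ (N * (N - 1)) := by positivity
    norm_num at h1
    linarith
  refine ⟨Near N c, 4 * Real.pi / (Om N * ε), ?_, hmpos, ?_, ⟨z1, hz1, hz1G.1, hz1G.2⟩, ?_⟩
  · have h1 := B7_moment_cont N
    have h2 := B7_disc_cont N
    exact isOpen_lt (by fun_prop) (by fun_prop)
  · intro z hz r b hr
    show c * moment (fun i => r * z i + b) ^ (N * (N - 1)) < ‖Disc (fun i => r * z i + b)‖ ^ 2
    have h1 : c * moment z ^ (N * (N - 1)) < ‖Disc z‖ ^ 2 := hz
    rw [B7_moment_aff hN1, B7_disc_aff, norm_mul, norm_pow, mul_pow, mul_pow, ← pow_mul, ← pow_mul,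
      mul_comm 2 (N * (N - 1))]
    have h2 : 0 < ‖r‖ ^ (N * (N - 1) * 2) := by positivity
    nlinarith
  · intro w hw hU hcen hin Ψ hΨ θ T hT
    have hT0 : 0 < T := lt_of_lt_of_le (by positivity) hT
    have hG : ∀ t, w t ∈ Gam N := fun t =>
      ⟨(B7_centre hw t).trans hcen, (B7_inertia hw t).trans hin⟩
    have hUt : ∀ t, w t ∈ Near N c := by
      intro t
      show c * moment (w t) ^ (N * (N - 1)) < ‖Disc (w t)‖ ^ 2
      have h1 : c * moment (w 0) ^ (N * (N - 1)) < ‖Disc (w 0)‖ ^ 2 := hU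
      rw [B7_moment_gam (hG t), B7_disc hw t]
      rwa [B7_moment_gam (hG 0)] at h1
    have hκ1 := kap_ge_one hN hw hin hT0
    have hκ : kap w T ≤ 1 + δ := by
      have hkc : Continuous fun t => Kin (w t) / (N * Om N ^ 2) := (B7_kin_cont hw).div_const _
      unfold kap
      have h1 : ∫ t in (0 : ℝ)..T, Kin (w t) / (N * Om N ^ 2) ≤ ∫ _t in (0 : ℝ)..T, (1 + δ) :=
        intervalIntegral.integral_mono_on hT0.le (hkc.intervalIntegrable _ _)
          intervalIntegrable_const fun t _ => by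
            have := (hc _ (hUt t) (hG t)).2
            linarith
      rw [intervalIntegral.integral_const, sub_zero, smul_eq_mul] at h1
      calc T⁻¹ * ∫ t in (0 : ℝ)..T, Kin (w t) / (N * Om N ^ 2) ≤ T⁻¹ * (T * (1 + δ)) :=
            mul_le_mul_of_nonneg_left h1 (inv_pos.mpr hT0).le
        _ = 1 + δ := by field_simp
    have hsq : Real.sqrt (1 - 1 / kap w T) ≤ ε / (2 * Real.pi) := by
      rw [← Real.sqrt_sq (show 0 ≤ ε / (2 * Real.pi) by positivity)]
      refine Real.sqrt_le_sqrt ?_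
      have h1 : 0 < kap w T := by linarith
      have h2 : 1 - 1 / kap w T = (kap w T - 1) / kap w T := by field_simp
      rw [h2, div_le_iff₀ h1]
      nlinarith
    set θ' := θ - round (θ / (2 * Real.pi)) * (2 * Real.pi) with hθ'
    have hθb : |θ'| ≤ Real.pi := by
      have h1 := abs_sub_round (θ / (2 * Real.pi))
      have h2 : θ' = (θ / (2 * Real.pi) - round (θ / (2 * Real.pi))) * (2 * Real.pi) := by
        rw [hθ']; field_simp
      rw [h2, abs_mul, abs_of_pos (by positivity : (0 : ℝ) < 2 * Real.pi)]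
      calc |θ / (2 * Real.pi) - round (θ / (2 * Real.pi))| * (2 * Real.pi)
          ≤ 1 / 2 * (2 * Real.pi) := mul_le_mul_of_nonneg_right h1 (by positivity)
        _ = Real.pi := by ring
    have h1 := near_isotropy_ineq hN hw hin hΨ θ' hT0
    simp only [hθ', B7_turn_mod] at h1
    refine h1.trans ?_
    have h2 : 2 / (Om N * kap w T * T) ≤ ε / (2 * Real.pi) := by
      have h3 : 0 < Om N * kap w T * T := by
        have : 0 < kap w T := by linarith
        positivity
      rw [div_le_div_iff₀ h3 (by positivity)]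
      rw [div_le_iff₀ (by positivity)] at hT
      have h4 : T * (Om N * ε) ≤ kap w T * (T * (Om N * ε)) :=
        le_mul_of_one_le_left (by positivity) hκ1
      nlinarith
    calc |θ - round (θ / (2 * Real.pi)) * (2 * Real.pi)|
          * (Real.sqrt (1 - 1 / kap w T) + 2 / (Om N * kap w T * T))
        ≤ Real.pi * (ε / (2 * Real.pi) + ε / (2 * Real.pi)) := by
          refine mul_le_mul hθb (add_le_add hsq h2) ?_ hpi.le
          have : 0 < kap w T := by linarith
          positivity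
      _ = ε := by field_simp; ring

end

end Pool.Agent.Lib_helper25.PV
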