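import Pool.Agent.Lib_helper25.PV.Defs

/-! Project PV (MP_b08f5f_an), block B7, part 1: identities of the vortex field. -/

set_option autoImplicit false

namespace Pool.Agent.Lib_helper25.PV

open MeasureTheory Filter Topology Set
open scoped ComplexConjugate

noncomputable section

/-- the speed of rotation on `Γ_N` -/
def Om (N : ℕ) : ℝ := ((N : ℝ) - 1) / (4 * Real.pi)

/-- the sum of the squares of the speeds -/
def Kin {N : ℕ} (z : Conf N) : ℝ := ∑ i, ‖vel z i‖ ^ 2

/-- the product of all differences -/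
def Disc {N : ℕ} (z : Conf N) : ℂ := ∏ i, ∏ j ∈ Finset.univ.erase i, (z i - z j)

theorem B7_swap {N : ℕ} (g : Fin N → Fin N → ℂ) :
    ∑ i, ∑ j ∈ Finset.univ.erase i, g i j = ∑ i, ∑ j ∈ Finset.univ.erase i, g j i := by
  refine Finset.sum_comm' fun x y => ?_
  simp only [Finset.mem_univ, Finset.mem_erase, true_and, and_true]
  exact ne_comm

theorem B7_vel_eq {N : ℕ} (z : Conf N) (i : Fin N) :
    vel z i = -(Complex.I / (2 * Real.pi)) * conj (∑ j ∈ Finset.univ.erase i, 1 / (z i - z j)) := by
  unfold vel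
  rw [map_sum]
  simp

theorem B7_sum_vel {N : ℕ} (z : Conf N) : ∑ i, vel z i = 0 := by
  unfold vel
  rw [← Finset.mul_sum]
  have h := B7_swap (fun i j : Fin N => 1 / conj (z i - z j))
  have h2 : ∑ i : Fin N, ∑ j ∈ Finset.univ.erase i, 1 / conj (z j - z i)
      = - ∑ i : Fin N, ∑ j ∈ Finset.univ.erase i, 1 / conj (z i - z j) := by
    rw [← Finset.sum_neg_distrib]
    refine Finset.sum_congr rfl fun i _ => ?_
    rw [← Finset.sum_neg_distrib]
    refine Finset.sum_congr rfl fun j _ => ?_
    rw [← neg_sub (z i) (z j), map_neg, div_neg]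
  rw [h2] at h
  have h3 : ∑ i : Fin N, ∑ j ∈ Finset.univ.erase i, 1 / conj (z i - z j) = 0 := by
    linear_combination h / 2
  rw [h3, mul_zero]

theorem B7_count {N : ℕ} (c : ℂ) :
    ∑ i : Fin N, ∑ _j ∈ Finset.univ.erase i, c = (N : ℂ) * ((N : ℂ) - 1) * c := by
  simp only [Finset.sum_const, Finset.card_erase_of_mem (Finset.mem_univ _), Finset.card_univ,
    Fintype.card_fin, nsmul_eq_mul]
  rcases Nat.eq_zero_or_pos N with rfl | h
  · simp
  · rw [Nat.cast_sub h]
    push_cast
    ring

/-- the virial identity -/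
theorem B7_virial {N : ℕ} {z : Conf N} (hz : Function.Injective z) :
    ∑ i, conj (z i) * vel z i = -(Complex.I * (N * Om N)) := by
  have h0 : ∑ i, conj (z i) * vel z i = -(Complex.I / (2 * Real.pi)) *
      ∑ i, ∑ j ∈ Finset.univ.erase i, conj (z i) / conj (z i - z j) := by
    rw [Finset.mul_sum]
    refine Finset.sum_congr rfl fun i _ => ?_
    unfold vel
    rw [Finset.mul_sum, Finset.mul_sum, Finset.mul_sum]
    refine Finset.sum_congr rfl fun j _ => ?_
    ring
  have h1 := B7_swap (fun i j : Fin N => conj (z i) / conj (z i - z j))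
  have h2 : ∑ i : Fin N, ∑ j ∈ Finset.univ.erase i, conj (z i) / conj (z i - z j)
      + ∑ i : Fin N, ∑ j ∈ Finset.univ.erase i, conj (z j) / conj (z j - z i)
      = ∑ i : Fin N, ∑ _j ∈ Finset.univ.erase i, (1 : ℂ) := by
    rw [← Finset.sum_add_distrib]
    refine Finset.sum_congr rfl fun i _ => ?_
    rw [← Finset.sum_add_distrib]
    refine Finset.sum_congr rfl fun j hj => ?_
    have hne : z i - z j ≠ 0 := sub_ne_zero.mpr fun h => (Finset.mem_erase.mp hj).1 (hz h).symm
    have hc : conj (z i - z j) ≠ 0 := (map_ne_zero _).mpr hne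
    rw [← neg_sub (z i) (z j), map_neg, div_neg, ← sub_eq_add_neg, ← sub_div, ← map_sub,
      div_self hc]
  rw [B7_count] at h2
  have h3 : ∑ i : Fin N, ∑ j ∈ Finset.univ.erase i, conj (z i) / conj (z i - z j)
      = (N : ℂ) * ((N : ℂ) - 1) / 2 := by
    rw [← h1] at h2
    linear_combination h2 / 2
  rw [h0, h3]
  unfold Om
  push_cast
  have hpi : (Real.pi : ℂ) ≠ 0 := by exact_mod_cast Real.pi_ne_zero
  field_simp
  ring

theorem B7_normSq (a : ℂ) : ((‖a‖ ^ 2 : ℝ) : ℂ) = conj a * a := by
  rw [Complex.conj_mul']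
  push_cast
  rfl

/-- the distance of the velocity field to the rigid rotation with speed `l` -/
theorem B7_excess_gen {N : ℕ} {z : Conf N} (hz : Function.Injective z) (hI : inertia z = N)
    (l : ℝ) : ∑ i, ‖vel z i + Complex.I * l * z i‖ ^ 2 = Kin z - 2 * l * N * Om N + N * l ^ 2 := by
  have h1 : ∀ i, ‖vel z i + Complex.I * l * z i‖ ^ 2
      = ‖vel z i‖ ^ 2 + l ^ 2 * ‖z i‖ ^ 2
        + 2 * (Complex.I * l * (z i * conj (vel z i))).re := by
    intro i
    have h2 : ((‖vel z i + Complex.I * l * z i‖ ^ 2 : ℝ) : ℂ)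
        = ((‖vel z i‖ ^ 2 + l ^ 2 * ‖z i‖ ^ 2 : ℝ) : ℂ)
          + (Complex.I * l * (z i * conj (vel z i))
            + conj (Complex.I * l * (z i * conj (vel z i)))) := by
      rw [B7_normSq]
      push_cast
      rw [← Complex.conj_mul', ← Complex.conj_mul']
      simp only [map_add, map_mul, Complex.conj_I, Complex.conj_ofReal, Complex.conj_conj]
      ring_nf
      rw [Complex.I_sq]
      ring
    rw [Complex.add_conj] at h2
    exact_mod_cast h2
  rw [Finset.sum_congr rfl fun i _ => h1 i, Finset.sum_add_distrib, Finset.sum_add_distrib,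
    ← Finset.mul_sum, ← Finset.mul_sum]
  have h3 : ∑ i, ‖z i‖ ^ 2 = (N : ℝ) := hI
  have h4 : ∑ i, (Complex.I * l * (z i * conj (vel z i))).re = -(l * N * Om N) := by
    rw [← Complex.re_sum, ← Finset.mul_sum]
    have h5 : ∑ i, z i * conj (vel z i) = conj (∑ i, conj (z i) * vel z i) := by
      rw [map_sum]
      refine Finset.sum_congr rfl fun i _ => ?_
      rw [map_mul, Complex.conj_conj]
    rw [h5, B7_virial hz]
    have h6 : Complex.I * (l : ℂ) * conj (-(Complex.I * ((N : ℂ) * Om N)))
        = ((-(l * N * Om N) : ℝ) : ℂ) := by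
      simp only [map_neg, map_mul, Complex.conj_I, Complex.conj_ofReal, Complex.conj_natCast]
      push_cast
      ring_nf
      rw [Complex.I_sq]
      ring
    rw [h6, Complex.ofReal_re]
  rw [h3, h4]
  unfold Kin
  ring

/-- the excess of the speeds over the rigid rotation -/
theorem B7_excess {N : ℕ} {z : Conf N} (hz : Function.Injective z) (hI : inertia z = N) :
    ∑ i, ‖vel z i + Complex.I * Om N * z i‖ ^ 2 = Kin z - N * Om N ^ 2 := by
  rw [B7_excess_gen hz hI]
  ring

theorem B7_prod_log {ι : Type*} [DecidableEq ι] (s : Finset ι) (f : ι → ℝ → ℂ) (g : ι → ℂ) (t : ℝ)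
    (h : ∀ i ∈ s, HasDerivAt (f i) (g i * f i t) t) :
    HasDerivAt (fun u => ∏ i ∈ s, f i u) ((∑ i ∈ s, g i) * ∏ i ∈ s, f i t) t := by
  induction s using Finset.induction_on with
  | empty => simpa using hasDerivAt_const t (1 : ℂ)
  | insert a s ha ih =>
    have h1 := ih fun i hi => h i (Finset.mem_insert_of_mem hi)
    have h2 := (h a (Finset.mem_insert_self a s)).mul h1
    have h3 : (fun u => ∏ i ∈ insert a s, f i u) = fun u => f a u * ∏ i ∈ s, f i u := by
      funext u
      exact Finset.prod_insert ha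
    rw [h3, Finset.prod_insert ha, Finset.sum_insert ha]
    refine h2.congr_deriv ?_
    ring

/-- the product of the differences turns with the speed `4 π K` -/
theorem Disc_hasDerivAt {N : ℕ} {w : ℝ → Conf N} (hw : Motion w) (t : ℝ) :
    HasDerivAt (fun s => Disc (w s)) (-(4 * Real.pi * Kin (w t) * Complex.I) * Disc (w t)) t := by
  have hinj := (hw t).1
  have h1 := B7_prod_log Finset.univ
    (fun i : Fin N => fun u => ∏ j ∈ Finset.univ.erase i, (w u i - w u j))
    (fun i => ∑ j ∈ Finset.univ.erase i, (vel (w t) i - vel (w t) j) / (w t i - w t j)) t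
    (fun i _ => by
      refine B7_prod_log (Finset.univ.erase i) (fun j : Fin N => fun u => w u i - w u j)
        (fun j => (vel (w t) i - vel (w t) j) / (w t i - w t j)) t fun j hj => ?_
      have hne : w t i - w t j ≠ 0 :=
        sub_ne_zero.mpr fun h => (Finset.mem_erase.mp hj).1 (hinj h).symm
      have h2 := ((hw t).2 i).sub ((hw t).2 j)
      refine h2.congr_deriv ?_
      field_simp)
  refine h1.congr_deriv ?_
  show _ * Disc (w t) = _
  congr 1
  have h2 : ∑ i : Fin N, ∑ j ∈ Finset.univ.erase i, (vel (w t) i - vel (w t) j) / (w t i - w t j)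
      = 2 * ∑ i : Fin N, vel (w t) i * ∑ j ∈ Finset.univ.erase i, 1 / (w t i - w t j) := by
    have h3 : ∑ i : Fin N, ∑ j ∈ Finset.univ.erase i, (vel (w t) i - vel (w t) j) / (w t i - w t j)
        = ∑ i : Fin N, ∑ j ∈ Finset.univ.erase i, vel (w t) i / (w t i - w t j)
          - ∑ i : Fin N, ∑ j ∈ Finset.univ.erase i, vel (w t) j / (w t i - w t j) := by
      rw [← Finset.sum_sub_distrib]
      refine Finset.sum_congr rfl fun i _ => ?_
      rw [← Finset.sum_sub_distrib]
      refine Finset.sum_congr rfl fun j _ => ?_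
      rw [sub_div]
    have h4 := B7_swap (fun i j : Fin N => vel (w t) j / (w t i - w t j))
    have h5 : ∑ i : Fin N, ∑ j ∈ Finset.univ.erase i, vel (w t) i / (w t j - w t i)
        = -∑ i : Fin N, ∑ j ∈ Finset.univ.erase i, vel (w t) i / (w t i - w t j) := by
      rw [← Finset.sum_neg_distrib]
      refine Finset.sum_congr rfl fun i _ => ?_
      rw [← Finset.sum_neg_distrib]
      refine Finset.sum_congr rfl fun j _ => ?_
      rw [← neg_sub (w t i) (w t j), div_neg]
    have h6 : ∑ i : Fin N, vel (w t) i * ∑ j ∈ Finset.univ.erase i, 1 / (w t i - w t j)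
        = ∑ i : Fin N, ∑ j ∈ Finset.univ.erase i, vel (w t) i / (w t i - w t j) := by
      refine Finset.sum_congr rfl fun i _ => ?_
      rw [Finset.mul_sum]
      refine Finset.sum_congr rfl fun j _ => ?_
      ring
    rw [h3, h4, h5, h6]
    ring
  rw [h2]
  have h7 : ∀ i : Fin N, vel (w t) i * ∑ j ∈ Finset.univ.erase i, 1 / (w t i - w t j)
      = -(2 * Real.pi * Complex.I) * ((‖vel (w t) i‖ ^ 2 : ℝ) : ℂ) := by
    intro i
    have h8 := B7_vel_eq (w t) i
    have h9 : conj (vel (w t) i)
        = (Complex.I / (2 * Real.pi)) * ∑ j ∈ Finset.univ.erase i, 1 / (w t i - w t j) := by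
      rw [h8]
      simp only [map_mul, map_neg, map_div₀, Complex.conj_I, Complex.conj_ofReal, Complex.conj_conj,
        map_ofNat]
      ring
    rw [B7_normSq, h9]
    have hpi : (Real.pi : ℂ) ≠ 0 := by exact_mod_cast Real.pi_ne_zero
    field_simp
    rw [Complex.I_sq]
    ring
  rw [Finset.sum_congr rfl fun i _ => h7 i, ← Finset.mul_sum, ← Complex.ofReal_sum]
  unfold Kin
  ring

end

end Pool.Agent.Lib_helper25.PV
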