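import Pool.Agent.Lib_helper59.PV.NearIso

/-! Project PV (MP_b08f5f_an), block B7, part 4: the isotropy defect is at most a constant times
the square root of the energy above its minimum on `Γ_N`. -/

set_option autoImplicit false

namespace Pool.Agent.Lib_helper25.PV

open MeasureTheory Filter Topology Set
open scoped ComplexConjugate

noncomputable section

/-- the field `2 π i (vel + i Ω z)` -/
def fld {N : ℕ} (z : Conf N) : Conf N := fun i =>
  2 * Real.pi * Complex.I * (vel z i + Complex.I * Om N * z i)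

/-- its squared norm -/
def fldV {N : ℕ} (z : Conf N) : ℝ := ∑ i, ‖fld z i‖ ^ 2

theorem E_sum_z {N : ℕ} (hN : 1 ≤ N) {z : Conf N} (hz : z ∈ Gam N) : ∑ i, z i = 0 := by
  have h1 := hz.1
  unfold centre at h1
  have h2 : (N : ℂ) ≠ 0 := by
    have : N ≠ 0 := by omega
    exact_mod_cast this
  exact (div_eq_zero_iff.mp h1).resolve_right h2

theorem E_sum_v {N : ℕ} (hN : 1 ≤ N) {z : Conf N} (hz : z ∈ Gam N) : ∑ i, fld z i = 0 := by
  simp only [fld, ← Finset.mul_sum, Finset.sum_add_distrib]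
  rw [B7_sum_vel, E_sum_z hN hz]
  ring

theorem E_zz {N : ℕ} {z : Conf N} (hz : z ∈ Gam N) : ∑ i, conj (z i) * z i = (N : ℂ) := by
  have h1 : ∑ i, ‖z i‖ ^ 2 = (N : ℝ) := hz.2
  have h2 : ((∑ i, ‖z i‖ ^ 2 : ℝ) : ℂ) = (N : ℂ) := by rw [h1]; push_cast; rfl
  rw [← h2, Complex.ofReal_sum]
  exact Finset.sum_congr rfl fun i _ => (B7_normSq _).symm

theorem E_zv {N : ℕ} {z : Conf N} (hz : z ∈ Gam N) (hinj : Function.Injective z) :
    ∑ i, conj (z i) * fld z i = 0 := by
  have h1 : ∑ i, conj (z i) * fld z i = 2 * Real.pi * Complex.I *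
      (∑ i, conj (z i) * vel z i + Complex.I * Om N * ∑ i, conj (z i) * z i) := by
    rw [Finset.mul_sum, ← Finset.sum_add_distrib, Finset.mul_sum]
    refine Finset.sum_congr rfl fun i _ => ?_
    simp only [fld]
    ring
  rw [h1, B7_virial hinj, E_zz hz]
  ring

theorem E_moment {N : ℕ} (hN : 1 ≤ N) {z : Conf N} (hz : z ∈ Gam N) (hinj : Function.Injective z)
    (s : ℝ) : moment (fun i => z i + s * fld z i) = N + s ^ 2 * fldV z := by
  have hc : centre (fun i => z i + s * fld z i) = 0 := by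
    unfold centre
    simp only [Finset.sum_add_distrib, ← Finset.mul_sum]
    rw [E_sum_z hN hz, E_sum_v hN hz]
    simp
  have h1 : ((moment (fun i => z i + s * fld z i) : ℝ) : ℂ) = ((N + s ^ 2 * fldV z : ℝ) : ℂ) := by
    unfold moment
    rw [hc, Complex.ofReal_sum]
    have h2 : ∀ i, ((‖z i + s * fld z i - 0‖ ^ 2 : ℝ) : ℂ) = conj (z i) * z i
        + s * (conj (z i) * fld z i) + s * conj (conj (z i) * fld z i)
        + s ^ 2 * ((‖fld z i‖ ^ 2 : ℝ) : ℂ) := by
      intro i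
      rw [B7_normSq, B7_normSq, sub_zero]
      simp only [map_add, map_mul, Complex.conj_ofReal, Complex.conj_conj]
      ring
    rw [Finset.sum_congr rfl fun i _ => h2 i, Finset.sum_add_distrib, Finset.sum_add_distrib,
      Finset.sum_add_distrib, ← Finset.mul_sum, ← Finset.mul_sum, ← Finset.mul_sum, ← map_sum,
      E_zv hz hinj, E_zz hz, ← Complex.ofReal_sum, map_zero]
    unfold fldV
    push_cast
    ring
  exact_mod_cast h1

theorem E_field {N : ℕ} {z : Conf N} (hz : z ∈ Gam N) (hinj : Function.Injective z) :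
    ∑ i : Fin N, fld z i * ∑ j ∈ Finset.univ.erase i, 1 / (z i - z j) = ((fldV z : ℝ) : ℂ) := by
  have hpi : (Real.pi : ℂ) ≠ 0 := by exact_mod_cast Real.pi_ne_zero
  have hS : ∀ i, ∑ j ∈ Finset.univ.erase i, 1 / (z i - z j)
      = conj (fld z i) + 2 * Real.pi * Om N * conj (z i) := by
    intro i
    have h8 := B7_vel_eq z i
    have h9 : conj (vel z i)
        = (Complex.I / (2 * Real.pi)) * ∑ j ∈ Finset.univ.erase i, 1 / (z i - z j) := by
      rw [h8]
      simp only [map_mul, map_neg, map_div₀, Complex.conj_I, Complex.conj_ofReal, Complex.conj_conj,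
        map_ofNat]
      ring
    simp only [fld, map_mul, map_add, Complex.conj_I, Complex.conj_ofReal, map_ofNat]
    rw [h9]
    field_simp
    ring_nf
    rw [Complex.I_sq]
    ring
  have h1 : ∀ i : Fin N, fld z i * ∑ j ∈ Finset.univ.erase i, 1 / (z i - z j)
      = ((‖fld z i‖ ^ 2 : ℝ) : ℂ) + 2 * Real.pi * Om N * (conj (z i) * fld z i) := by
    intro i
    rw [hS i, B7_normSq]
    ring
  rw [Finset.sum_congr rfl fun i _ => h1 i, Finset.sum_add_distrib, ← Finset.mul_sum, E_zv hz hinj,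
    mul_zero, add_zero, ← Complex.ofReal_sum]
  rfl

theorem E_fldV {N : ℕ} {z : Conf N} (hz : z ∈ Gam N) (hinj : Function.Injective z) :
    fldV z = 4 * Real.pi ^ 2 * (Kin z - N * Om N ^ 2) := by
  rw [← B7_excess hinj hz.2]
  unfold fldV
  rw [Finset.mul_sum]
  refine Finset.sum_congr rfl fun i _ => ?_
  simp only [fld]
  rw [norm_mul, mul_pow, norm_mul, norm_mul, Complex.norm_I, Complex.norm_real, Real.norm_eq_abs,
    abs_of_pos Real.pi_pos]
  have : ‖(2 : ℂ)‖ = 2 := by simp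
  rw [this]
  ring

/-! ### logarithms -/

theorem E_log {u : ℂ} (hu : ‖u‖ ≤ 1 / 2) : u.re - ‖u‖ ^ 2 ≤ Real.log ‖1 + u‖ := by
  have h1 := Complex.norm_log_one_add_sub_self_le (z := u) (by linarith)
  have h2 : (Complex.log (1 + u) - u).re = Real.log ‖1 + u‖ - u.re := by
    rw [Complex.sub_re, Complex.log_re]
  have h3 := (abs_le.mp (Complex.abs_re_le_norm (Complex.log (1 + u) - u))).1
  rw [h2] at h3
  have h4 : ‖u‖ ^ 2 * (1 - ‖u‖)⁻¹ / 2 ≤ ‖u‖ ^ 2 := by
    have h5 : (1 - ‖u‖)⁻¹ ≤ 2 := by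
      rw [inv_le_comm₀ (by linarith) (by norm_num)]
      linarith
    nlinarith [sq_nonneg ‖u‖]
  linarith

theorem E_log_disc {N : ℕ} {z : Conf N} (hinj : Function.Injective z) :
    Real.log ‖Disc z‖ = ∑ i, ∑ j ∈ Finset.univ.erase i, Real.log ‖z i - z j‖ := by
  unfold Disc
  rw [norm_prod, Real.log_prod]
  · refine Finset.sum_congr rfl fun i _ => ?_
    rw [norm_prod, Real.log_prod]
    intro j hj
    exact norm_ne_zero_iff.mpr (sub_ne_zero.mpr fun h => (Finset.mem_erase.mp hj).1 (hinj h).symm)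
  · intro i _
    rw [norm_prod]
    refine Finset.prod_ne_zero_iff.mpr fun j hj => ?_
    exact norm_ne_zero_iff.mpr (sub_ne_zero.mpr fun h => (Finset.mem_erase.mp hj).1 (hinj h).symm)

/-- one step of the ascent -/
theorem E_step {N : ℕ} {z v : Conf N} (hinj : Function.Injective z) {d s : ℝ} (hd : 0 < d)
    (hs : 0 ≤ s) (hzd : ∀ i, ∀ j ∈ Finset.univ.erase i, d ≤ ‖z i - z j‖)
    (hvd : ∀ i j, s * ‖v i - v j‖ ≤ d / 2) :
    Function.Injective (fun i => z i + s * v i) ∧
    Real.log ‖Disc z‖ + s * (2 * ∑ i : Fin N, v i * ∑ j ∈ Finset.univ.erase i, 1 / (z i - z j)).re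
      - s ^ 2 * ((∑ i, ∑ j ∈ Finset.univ.erase i, ‖v i - v j‖ ^ 2) / d ^ 2)
      ≤ Real.log ‖Disc (fun i => z i + s * v i)‖ := by
  have hfac : ∀ i, ∀ j ∈ Finset.univ.erase i, (z i + s * v i) - (z j + s * v j)
      = (z i - z j) * (1 + s * ((v i - v j) / (z i - z j))) := by
    intro i j hj
    have hne : z i - z j ≠ 0 := sub_ne_zero.mpr fun h => (Finset.mem_erase.mp hj).1 (hinj h).symm
    field_simp
    ring
  have hu : ∀ i, ∀ j ∈ Finset.univ.erase i, ‖(s : ℂ) * ((v i - v j) / (z i - z j))‖ ≤ 1 / 2 := by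
    intro i j hj
    have h1 := hzd i j hj
    have h2 := hvd i j
    rw [norm_mul, Complex.norm_real, Real.norm_eq_abs, abs_of_nonneg hs, norm_div, ← mul_div_assoc,
      div_le_iff₀ (by linarith)]
    linarith
  have hne1 : ∀ i, ∀ j ∈ Finset.univ.erase i, (1 : ℂ) + s * ((v i - v j) / (z i - z j)) ≠ 0 := by
    intro i j hj h
    have h1 := hu i j hj
    have h2 : (s : ℂ) * ((v i - v j) / (z i - z j)) = -1 := by linear_combination h
    rw [h2, norm_neg, norm_one] at h1
    norm_num at h1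
  have hinj' : Function.Injective (fun i => z i + s * v i) := by
    intro i j hij
    by_contra hne
    have hj : j ∈ Finset.univ.erase i := Finset.mem_erase.mpr ⟨fun h => hne h.symm, Finset.mem_univ j⟩
    have h1 := hfac i j hj
    have h2 : (z i + s * v i) - (z j + s * v j) = 0 := sub_eq_zero.mpr hij
    rw [h2] at h1
    have h3 : z i - z j ≠ 0 := sub_ne_zero.mpr fun h => hne (hinj h)
    exact (mul_ne_zero h3 (hne1 i j hj)) h1.symm
  refine ⟨hinj', ?_⟩
  rw [E_log_disc hinj, E_log_disc hinj']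
  have h3 : (2 * ∑ i : Fin N, v i * ∑ j ∈ Finset.univ.erase i, 1 / (z i - z j)).re
      = ∑ i : Fin N, ∑ j ∈ Finset.univ.erase i, ((v i - v j) / (z i - z j)).re := by
    have h4 : (2 * ∑ i : Fin N, v i * ∑ j ∈ Finset.univ.erase i, 1 / (z i - z j))
        = ∑ i : Fin N, ∑ j ∈ Finset.univ.erase i, (v i - v j) / (z i - z j) := by
      have h5 : ∑ i : Fin N, ∑ j ∈ Finset.univ.erase i, (v i - v j) / (z i - z j)
          = ∑ i : Fin N, ∑ j ∈ Finset.univ.erase i, v i / (z i - z j)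
            - ∑ i : Fin N, ∑ j ∈ Finset.univ.erase i, v j / (z i - z j) := by
        rw [← Finset.sum_sub_distrib]
        refine Finset.sum_congr rfl fun i _ => ?_
        rw [← Finset.sum_sub_distrib]
        refine Finset.sum_congr rfl fun j _ => ?_
        rw [sub_div]
      have h6 := B7_swap (fun i j : Fin N => v j / (z i - z j))
      have h7 : ∑ i : Fin N, ∑ j ∈ Finset.univ.erase i, v i / (z j - z i)
          = -∑ i : Fin N, ∑ j ∈ Finset.univ.erase i, v i / (z i - z j) := by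
        rw [← Finset.sum_neg_distrib]
        refine Finset.sum_congr rfl fun i _ => ?_
        rw [← Finset.sum_neg_distrib]
        refine Finset.sum_congr rfl fun j _ => ?_
        rw [← neg_sub (z i) (z j), div_neg]
      have h8 : ∑ i : Fin N, v i * ∑ j ∈ Finset.univ.erase i, 1 / (z i - z j)
          = ∑ i : Fin N, ∑ j ∈ Finset.univ.erase i, v i / (z i - z j) := by
        refine Finset.sum_congr rfl fun i _ => ?_
        rw [Finset.mul_sum]
        refine Finset.sum_congr rfl fun j _ => ?_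
        ring
      rw [h5, h6, h7, h8]
      ring
    rw [h4, Complex.re_sum]
    exact Finset.sum_congr rfl fun i _ => Complex.re_sum _ _
  rw [h3, Finset.mul_sum, Finset.sum_div, Finset.mul_sum, ← Finset.sum_add_distrib,
    ← Finset.sum_sub_distrib]
  refine Finset.sum_le_sum fun i _ => ?_
  rw [Finset.mul_sum, Finset.sum_div, Finset.mul_sum, ← Finset.sum_add_distrib,
    ← Finset.sum_sub_distrib]
  refine Finset.sum_le_sum fun j hj => ?_
  have hne : z i - z j ≠ 0 := sub_ne_zero.mpr fun h => (Finset.mem_erase.mp hj).1 (hinj h).symm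
  have hz0 : 0 < ‖z i - z j‖ := norm_pos_iff.mpr hne
  rw [hfac i j hj, norm_mul, Real.log_mul hz0.ne' (norm_ne_zero_iff.mpr (hne1 i j hj))]
  have h9 := E_log (hu i j hj)
  have h10 : ((s : ℂ) * ((v i - v j) / (z i - z j))).re = s * ((v i - v j) / (z i - z j)).re :=
    Complex.re_ofReal_mul _ _
  have h11 : ‖(s : ℂ) * ((v i - v j) / (z i - z j))‖ ^ 2 ≤ s ^ 2 * (‖v i - v j‖ ^ 2 / d ^ 2) := by
    rw [norm_mul, Complex.norm_real, Real.norm_eq_abs, mul_pow, sq_abs, norm_div, div_pow]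
    refine mul_le_mul_of_nonneg_left ?_ (sq_nonneg _)
    refine div_le_div_of_nonneg_left (sq_nonneg _) (by positivity) ?_
    exact pow_le_pow_left₀ hd.le (hzd i j hj) 2
  rw [h10] at h9
  linarith

/-! ### the gradient inequality -/

/-- the energy -/
def Ham {N : ℕ} (z : Conf N) : ℝ :=
  -(1 / (4 * Real.pi)) * ∑ i, ∑ j ∈ Finset.univ.erase i, Real.log ‖z i - z j‖

theorem E_norm_le {N : ℕ} {z : Conf N} (hz : z ∈ Gam N) (i : Fin N) : ‖z i‖ ≤ N := by
  have h1 : ‖z i‖ ^ 2 ≤ N := by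
    rw [← hz.2]
    exact Finset.single_le_sum (f := fun i => ‖z i‖ ^ 2) (fun i _ => sq_nonneg _)
      (Finset.mem_univ i)
  have h2 : 0 < N := i.pos
  have h3 : (1 : ℝ) ≤ N := by exact_mod_cast h2
  nlinarith [norm_nonneg (z i)]

theorem E_dist {N : ℕ} {z : Conf N} (hz : z ∈ Gam N) (i j : Fin N)
    (hj : j ∈ Finset.univ.erase i) : ‖Disc z‖ ≤ ‖z i - z j‖ * (2 * N : ℝ) ^ (N * N) := by
  have hN : 0 < N := i.pos
  have hN1 : (1 : ℝ) ≤ N := by exact_mod_cast hN
  have hM : (1 : ℝ) ≤ 2 * N := by linarith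
  have hab : ∀ a b : Fin N, ‖z a - z b‖ ≤ 2 * N := by
    intro a b
    refine (norm_sub_le _ _).trans ?_
    linarith [E_norm_le hz a, E_norm_le hz b]
  have hprod : ∀ (t : Finset (Fin N)) (a : Fin N), t.card ≤ N →
      ∏ b ∈ t, ‖z a - z b‖ ≤ (2 * N : ℝ) ^ N := by
    intro t a ht
    calc ∏ b ∈ t, ‖z a - z b‖ ≤ ∏ _b ∈ t, (2 * N : ℝ) :=
          Finset.prod_le_prod (fun b _ => norm_nonneg _) fun b _ => hab a b
      _ = (2 * N : ℝ) ^ t.card := Finset.prod_const _
      _ ≤ (2 * N : ℝ) ^ N := pow_le_pow_right₀ hM ht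
  have hcard : ∀ t : Finset (Fin N), t.card ≤ N := fun t => by
    simpa using Finset.card_le_univ t
  unfold Disc
  rw [norm_prod]
  simp only [norm_prod]
  rw [← Finset.mul_prod_erase Finset.univ _ (Finset.mem_univ i),
    ← Finset.mul_prod_erase (Finset.univ.erase i) _ hj]
  have h1 := hprod ((Finset.univ.erase i).erase j) i (hcard _)
  have h2 : ∏ a ∈ Finset.univ.erase i, ∏ b ∈ Finset.univ.erase a, ‖z a - z b‖
      ≤ (2 * N : ℝ) ^ (N * (N - 1)) := by
    calc ∏ a ∈ Finset.univ.erase i, ∏ b ∈ Finset.univ.erase a, ‖z a - z b‖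
        ≤ ∏ _a ∈ Finset.univ.erase i, (2 * N : ℝ) ^ N :=
          Finset.prod_le_prod (fun a _ => Finset.prod_nonneg fun b _ => norm_nonneg _)
            fun a _ => hprod _ a (hcard _)
      _ = ((2 * N : ℝ) ^ N) ^ (N - 1) := by
          rw [Finset.prod_const, Finset.card_erase_of_mem (Finset.mem_univ _), Finset.card_univ,
            Fintype.card_fin]
      _ = _ := by rw [← pow_mul]
  have h3 : (2 * N : ℝ) ^ (N * N) = (2 * N : ℝ) ^ N * (2 * N : ℝ) ^ (N * (N - 1)) := by
    rw [← pow_add]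
    congr 1
    have : N = (N - 1) + 1 := by omega
    nlinarith [Nat.sub_add_cancel hN]
  rw [h3, ← mul_assoc]
  refine mul_le_mul (mul_le_mul_of_nonneg_left h1 (norm_nonneg _)) h2 ?_ ?_
  · exact Finset.prod_nonneg fun a _ => Finset.prod_nonneg fun b _ => norm_nonneg _
  · positivity

theorem E_kin_le {N : ℕ} {z : Conf N} {d : ℝ} (hd : 0 < d)
    (hzd : ∀ i, ∀ j ∈ Finset.univ.erase i, d ≤ ‖z i - z j‖) :
    4 * Real.pi ^ 2 * Kin z ≤ N * (N / d) ^ 2 := by
  have hpi := Real.pi_pos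
  have h1 : ∀ i, ‖vel z i‖ ≤ 1 / (2 * Real.pi) * (N / d) := by
    intro i
    unfold vel
    rw [norm_mul, norm_neg, norm_div, Complex.norm_I, norm_mul, Complex.norm_real,
      Real.norm_eq_abs, abs_of_pos hpi]
    have h2 : ‖(2 : ℂ)‖ = 2 := by simp
    rw [h2]
    refine mul_le_mul_of_nonneg_left ?_ (by positivity)
    refine (norm_sum_le _ _).trans ?_
    calc ∑ j ∈ Finset.univ.erase i, ‖1 / conj (z i - z j)‖
        ≤ ∑ _j ∈ Finset.univ.erase i, 1 / d := by
          refine Finset.sum_le_sum fun j hj => ?_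
          rw [norm_div, norm_one, Complex.norm_conj]
          exact one_div_le_one_div_of_le hd (hzd i j hj)
      _ ≤ N * (1 / d) := by
          rw [Finset.sum_const, nsmul_eq_mul]
          refine mul_le_mul_of_nonneg_right ?_ (by positivity)
          have := Finset.card_le_univ (Finset.univ.erase i)
          rw [Fintype.card_fin] at this
          exact_mod_cast this
      _ = N / d := by ring
  unfold Kin
  have h3 : ∑ i, ‖vel z i‖ ^ 2 ≤ ∑ _i : Fin N, (1 / (2 * Real.pi) * (N / d)) ^ 2 :=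
    Finset.sum_le_sum fun i _ => pow_le_pow_left₀ (norm_nonneg _) (h1 i) 2
  rw [Finset.sum_const, Finset.card_univ, Fintype.card_fin, nsmul_eq_mul] at h3
  calc 4 * Real.pi ^ 2 * ∑ i, ‖vel z i‖ ^ 2
      ≤ 4 * Real.pi ^ 2 * (N * (1 / (2 * Real.pi) * (N / d)) ^ 2) :=
        mul_le_mul_of_nonneg_left h3 (by positivity)
    _ = N * (N / d) ^ 2 := by
        field_simp
        ring

theorem E_gap {N : ℕ} (hN : 2 ≤ N) {z0 : Conf N} (hinj0 : Function.Injective z0)
    (hmax : ∀ y ∈ Gam N, ‖Disc y‖ ^ 2 ≤ ‖Disc z0‖ ^ 2) :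
    ∃ C > 0, ∀ z ∈ Gam N, Function.Injective z →
      Real.log ‖Disc z0‖ - Real.log ‖Disc z‖ ≤ 1 / 2 →
      fldV z ≤ C * (Real.log ‖Disc z0‖ - Real.log ‖Disc z‖) := by
  have hN1 : 1 ≤ N := by omega
  have hN2 : (2 : ℝ) ≤ N := by exact_mod_cast hN
  have hN0 : (0 : ℝ) < N := by linarith
  have hD0 : 0 < ‖Disc z0‖ := norm_pos_iff.mpr (B7_disc_ne.mpr hinj0)
  set L0 := Real.log ‖Disc z0‖ with hL0
  set d : ℝ := min 1 (Real.exp (L0 - 1 / 2) / (2 * N : ℝ) ^ (N * N)) with hd
  have hd0 : 0 < d := lt_min one_pos (by positivity)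
  have hd1 : d ≤ 1 := min_le_left _ _
  refine ⟨16 * N ^ 2 / d ^ 2, by positivity, fun z hz hinj hgap => ?_⟩
  have hDz : 0 < ‖Disc z‖ := norm_pos_iff.mpr (B7_disc_ne.mpr hinj)
  set Lz := Real.log ‖Disc z‖ with hLz
  have hzd : ∀ i, ∀ j ∈ Finset.univ.erase i, d ≤ ‖z i - z j‖ := by
    intro i j hj
    refine (min_le_right _ _).trans ?_
    rw [div_le_iff₀ (by positivity)]
    refine le_trans ?_ (E_dist hz i j hj)
    have h1 : Real.exp (L0 - 1 / 2) ≤ Real.exp Lz := Real.exp_le_exp.mpr (by linarith)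
    rwa [hLz, Real.exp_log hDz] at h1
  set V := fldV z with hV
  have hV0 : 0 ≤ V := by rw [hV]; unfold fldV; positivity
  have hVle : V ≤ N * (N / d) ^ 2 := by
    rw [hV, E_fldV hz hinj]
    have h1 := E_kin_le hd0 hzd
    have h2 : 0 ≤ 4 * Real.pi ^ 2 * (N * Om N ^ 2) := by positivity
    linarith
  have hvi : ∀ i, ‖fld z i‖ ≤ N ^ 2 / d := by
    intro i
    have h1 : ‖fld z i‖ ^ 2 ≤ V := Finset.single_le_sum (f := fun i => ‖fld z i‖ ^ 2)
      (fun i _ => sq_nonneg _) (Finset.mem_univ i)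
    have h2 : (N : ℝ) * (N / d) ^ 2 ≤ (N ^ 2 / d) ^ 2 := by
      rw [div_pow, div_pow, ← mul_div_assoc]
      refine div_le_div_of_nonneg_right ?_ (by positivity)
      nlinarith [sq_nonneg (N : ℝ), mul_pos hN0 hN0]
    exact le_of_sq_le_sq ((h1.trans hVle).trans h2) (by positivity)
  set s : ℝ := d ^ 2 / (16 * N ^ 2) with hs
  have hs0 : 0 < s := by positivity
  have hvd : ∀ i j, s * ‖fld z i - fld z j‖ ≤ d / 2 := by
    intro i j
    have h1 : ‖fld z i - fld z j‖ ≤ 2 * (N ^ 2 / d) := by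
      refine (norm_sub_le _ _).trans ?_
      linarith [hvi i, hvi j]
    calc s * ‖fld z i - fld z j‖ ≤ s * (2 * (N ^ 2 / d)) := mul_le_mul_of_nonneg_left h1 hs0.le
      _ = d / 8 := by rw [hs]; field_simp; ring
      _ ≤ d / 2 := by linarith
  obtain ⟨hinj', hstep⟩ := E_step hinj hd0 hs0.le hzd hvd
  rw [show (2 * ∑ i : Fin N, fld z i * ∑ j ∈ Finset.univ.erase i, 1 / (z i - z j))
      = ((2 * V : ℝ) : ℂ) by rw [E_field hz hinj]; push_cast; rfl, Complex.ofReal_re] at hstep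
  -- the quadratic term
  have hquad : ∑ i, ∑ j ∈ Finset.univ.erase i, ‖fld z i - fld z j‖ ^ 2 ≤ 4 * N * V := by
    calc ∑ i, ∑ j ∈ Finset.univ.erase i, ‖fld z i - fld z j‖ ^ 2
        ≤ ∑ i : Fin N, ∑ j : Fin N, (2 * ‖fld z i‖ ^ 2 + 2 * ‖fld z j‖ ^ 2) := by
          refine Finset.sum_le_sum fun i _ => ?_
          refine (Finset.sum_le_sum_of_subset_of_nonneg (Finset.erase_subset _ _)
            fun _ _ _ => sq_nonneg _).trans (Finset.sum_le_sum fun j _ => ?_)
          have h1 : ‖fld z i - fld z j‖ ≤ ‖fld z i‖ + ‖fld z j‖ := norm_sub_le _ _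
          have h2 : ‖fld z i - fld z j‖ ^ 2 ≤ (‖fld z i‖ + ‖fld z j‖) ^ 2 :=
            pow_le_pow_left₀ (norm_nonneg _) h1 2
          nlinarith [sq_nonneg (‖fld z i‖ - ‖fld z j‖)]
      _ = 4 * N * V := by
          simp only [Finset.sum_add_distrib, Finset.sum_const, Finset.card_univ, Fintype.card_fin,
            nsmul_eq_mul, ← Finset.mul_sum]
          rw [hV]
          unfold fldV
          ring
  -- the upper bound
  have hup : Real.log ‖Disc (fun i => z i + s * fld z i)‖ ≤ L0 + N * (s ^ 2 * V) := by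
    have h1 := hmax _ (B7_nrm_mem hN hinj')
    rw [B7_nrm_disc, E_moment hN1 hz hinj] at h1
    have hDp : 0 < ‖Disc (fun i => z i + s * fld z i)‖ :=
      norm_pos_iff.mpr (B7_disc_ne.mpr hinj')
    have hmp : (0 : ℝ) < N + s ^ 2 * V := by positivity
    have h2 := Real.log_le_log (by positivity) h1
    rw [Real.log_mul (by positivity) (by positivity), Real.log_pow, Real.log_pow, Real.log_pow,
      Real.log_div hN0.ne' hmp.ne'] at h2
    have h3 : Real.log (N + s ^ 2 * V) - Real.log N ≤ s ^ 2 * V / N := by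
      rw [← Real.log_div hmp.ne' hN0.ne']
      have h4 : (N + s ^ 2 * V) / N = 1 + s ^ 2 * V / N := by field_simp
      rw [h4]
      have h5 := Real.log_le_sub_one_of_pos (x := 1 + s ^ 2 * V / N) (by positivity)
      linarith
    have h6 : ((N * (N - 1) : ℕ) : ℝ) * (Real.log (N + s ^ 2 * V) - Real.log N)
        ≤ N * (s ^ 2 * V) := by
      have h7 : ((N * (N - 1) : ℕ) : ℝ) ≤ N * N := by
        have : N * (N - 1) ≤ N * N := Nat.mul_le_mul_left N (Nat.sub_le N 1)
        exact_mod_cast this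
      calc ((N * (N - 1) : ℕ) : ℝ) * (Real.log (N + s ^ 2 * V) - Real.log N)
          ≤ ((N * (N - 1) : ℕ) : ℝ) * (s ^ 2 * V / N) :=
            mul_le_mul_of_nonneg_left h3 (Nat.cast_nonneg _)
        _ ≤ (N * N) * (s ^ 2 * V / N) := mul_le_mul_of_nonneg_right h7 (by positivity)
        _ = N * (s ^ 2 * V) := by field_simp
    push_cast at h2 h6
    have h8 : 0 ≤ N * (s ^ 2 * V) := by positivity
    rw [← hL0] at h2
    nlinarith
  have hq2 : s ^ 2 * ((∑ i, ∑ j ∈ Finset.univ.erase i, ‖fld z i - fld z j‖ ^ 2) / d ^ 2)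
      ≤ s * V / 8 := by
    have h1 : (∑ i, ∑ j ∈ Finset.univ.erase i, ‖fld z i - fld z j‖ ^ 2) / d ^ 2
        ≤ 4 * N * V / d ^ 2 := div_le_div_of_nonneg_right hquad (by positivity)
    calc s ^ 2 * ((∑ i, ∑ j ∈ Finset.univ.erase i, ‖fld z i - fld z j‖ ^ 2) / d ^ 2)
        ≤ s ^ 2 * (4 * N * V / d ^ 2) := mul_le_mul_of_nonneg_left h1 (sq_nonneg _)
      _ = s * V * (1 / (4 * N)) := by rw [hs]; field_simp; ring
      _ ≤ s * V * (1 / 8) := by
          refine mul_le_mul_of_nonneg_left ?_ (by positivity)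
          exact one_div_le_one_div_of_le (by norm_num) (by linarith)
      _ = s * V / 8 := by ring
  have hNs : N * (s ^ 2 * V) ≤ s * V / 8 := by
    have h1 : (N : ℝ) * s ≤ 1 / 8 := by
      rw [hs]
      have h2 : (N : ℝ) * (d ^ 2 / (16 * N ^ 2)) = d ^ 2 / (16 * N) := by field_simp
      rw [h2, div_le_div_iff₀ (by positivity) (by norm_num)]
      nlinarith
    have h3 : 0 ≤ s * V := by positivity
    nlinarith
  have hfin : s * V ≤ L0 - Lz := by
    have h3 : 0 ≤ s * V := by positivity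
    linarith
  have h4 : V = 16 * N ^ 2 / d ^ 2 * (s * V) := by rw [hs]; field_simp
  rw [h4]
  exact mul_le_mul_of_nonneg_left hfin (by positivity)

/-- **The isotropy defect is at most `C * (√(H - min H) + 1 / T)`** for every motion in `Γ_N`. -/
theorem near_isotropy_energy {N : ℕ} (hN : 2 ≤ N) : ∃ C > 0, ∃ z0 ∈ Gam N,
    Function.Injective z0 ∧ (∀ z ∈ Gam N, Function.Injective z → Ham z0 ≤ Ham z) ∧
    ∀ w : ℝ → Conf N, Motion w → w 0 ∈ Gam N → ∀ Ψ : Conf N → ℝ, Lip1 Ψ → ∀ θ : ℝ, ∀ T > 0,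
      |T⁻¹ * (∫ t in (0 : ℝ)..T, Ψ (turn θ (w t))) - T⁻¹ * ∫ t in (0 : ℝ)..T, Ψ (w t)|
        ≤ C * (Real.sqrt (Ham (w 0) - Ham z0) + 1 / T) := by
  have hN1 : 1 ≤ N := by omega
  have hN0 : (0 : ℝ) < N := by exact_mod_cast hN1
  have hOm := Om_pos hN
  have hpi := Real.pi_pos
  have hFc : Continuous fun z : Conf N => ‖Disc z‖ ^ 2 := (B7_disc_cont N).norm.pow 2
  have hinj1 : Function.Injective (fun i : Fin N => ((i : ℕ) : ℂ)) := by
    intro i j h
    have h' : ((i : ℕ) : ℂ) = ((j : ℕ) : ℂ) := h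
    exact Fin.ext (by exact_mod_cast h')
  obtain ⟨z0, hz0, hmax0⟩ := (B7_gam_compact N).exists_isMaxOn ⟨_, B7_nrm_mem hN hinj1⟩
    hFc.continuousOn
  have hpos : 0 < ‖Disc z0‖ ^ 2 := by
    refine lt_of_lt_of_le ?_ (hmax0 (B7_nrm_mem hN hinj1))
    show 0 < ‖Disc (nrm (fun i : Fin N => ((i : ℕ) : ℂ)))‖ ^ 2
    rw [B7_nrm_disc]
    have h1 := B7_moment_pos hN hinj1
    have h2 := B7_disc_ne.mpr hinj1
    positivity
  have hinj0 : Function.Injective z0 := by
    refine B7_disc_ne.mp fun h => ?_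
    rw [h] at hpos
    simp at hpos
  have hmax : ∀ y ∈ Gam N, ‖Disc y‖ ^ 2 ≤ ‖Disc z0‖ ^ 2 := fun y hy => hmax0 hy
  have hHam : ∀ z : Conf N, Function.Injective z → Real.log ‖Disc z‖ = -(4 * Real.pi * Ham z) := by
    intro z hz
    rw [E_log_disc hz]
    unfold Ham
    field_simp
  have hHmin : ∀ z ∈ Gam N, Function.Injective z → Ham z0 ≤ Ham z := by
    intro z hz hinj
    have h1 := hmax z hz
    have h2 : 0 < ‖Disc z‖ := norm_pos_iff.mpr (B7_disc_ne.mpr hinj)
    have h3 : ‖Disc z‖ ≤ ‖Disc z0‖ := le_of_sq_le_sq h1 (norm_nonneg _)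
    have h4 := Real.log_le_log h2 h3
    rw [hHam z hinj, hHam z0 hinj0] at h4
    nlinarith
  obtain ⟨C1, hC1, hgap⟩ := E_gap hN hinj0 hmax
  set C2 : ℝ := C1 / (Real.pi * N * Om N ^ 2) with hC2
  have hC20 : 0 < C2 := by positivity
  refine ⟨Real.pi * Real.sqrt C2 + 2 * Real.sqrt (8 * Real.pi) + 2 * Real.pi / Om N, by positivity,
    z0, hz0, hinj0, hHmin, ?_⟩
  intro w hw hG Ψ hΨ θ T hT
  have hGt : ∀ t, w t ∈ Gam N := fun t =>
    ⟨(B7_centre hw t).trans hG.1, (B7_inertia hw t).trans hG.2⟩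
  have hHt : ∀ t, Ham (w t) = Ham (w 0) := by
    intro t
    have h1 := congrArg Real.log (B7_disc hw t)
    rw [hHam _ (hw t).1, hHam _ (hw 0).1] at h1
    have h2 : (4 * Real.pi) * Ham (w t) = (4 * Real.pi) * Ham (w 0) := by linarith
    exact mul_left_cancel₀ (by positivity) h2
  set h : ℝ := Ham (w 0) - Ham z0 with hh
  have hh0 : 0 ≤ h := by
    rw [hh]
    linarith [hHmin (w 0) hG (hw 0).1]
  have hsq0 : 0 ≤ Real.sqrt h := Real.sqrt_nonneg _
  rcases le_or_gt (4 * Real.pi * h) (1 / 2) with hcase | hcase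
  · -- small excess of energy
    have hkt : ∀ t, Kin (w t) / (N * Om N ^ 2) ≤ 1 + C2 * h := by
      intro t
      have h1 := hgap (w t) (hGt t) (hw t).1 (by
        rw [hHam _ (hw t).1, hHam _ hinj0, hHt t]
        rw [hh] at hcase
        linarith)
      rw [hHam _ (hw t).1, hHam _ hinj0, hHt t, E_fldV (hGt t) (hw t).1] at h1
      have h2 : Kin (w t) - N * Om N ^ 2 ≤ C1 / Real.pi * h := by
        have h3 : 4 * Real.pi ^ 2 * (Kin (w t) - N * Om N ^ 2)
            ≤ 4 * Real.pi ^ 2 * (C1 / Real.pi * h) := by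
          calc 4 * Real.pi ^ 2 * (Kin (w t) - N * Om N ^ 2)
              ≤ C1 * (-(4 * Real.pi * Ham z0) - -(4 * Real.pi * Ham (w 0))) := h1
            _ = 4 * Real.pi ^ 2 * (C1 / Real.pi * h) := by
                rw [hh]; field_simp; ring
        exact le_of_mul_le_mul_left h3 (by positivity)
      rw [div_le_iff₀ (by positivity)]
      calc Kin (w t) ≤ N * Om N ^ 2 + C1 / Real.pi * h := by linarith
        _ = (1 + C2 * h) * (N * Om N ^ 2) := by rw [hC2]; field_simp
    have hκ1 := kap_ge_one hN hw hG.2 hT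
    have hκ : kap w T ≤ 1 + C2 * h := by
      have hkc : Continuous fun t => Kin (w t) / (N * Om N ^ 2) := (B7_kin_cont hw).div_const _
      unfold kap
      have h1 : ∫ t in (0 : ℝ)..T, Kin (w t) / (N * Om N ^ 2) ≤ ∫ _t in (0 : ℝ)..T, (1 + C2 * h) :=
        intervalIntegral.integral_mono_on hT.le (hkc.intervalIntegrable _ _)
          intervalIntegrable_const fun t _ => hkt t
      rw [intervalIntegral.integral_const, sub_zero, smul_eq_mul] at h1
      calc T⁻¹ * ∫ t in (0 : ℝ)..T, Kin (w t) / (N * Om N ^ 2) ≤ T⁻¹ * (T * (1 + C2 * h)) :=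
            mul_le_mul_of_nonneg_left h1 (inv_pos.mpr hT).le
        _ = 1 + C2 * h := by field_simp
    have hsq : Real.sqrt (1 - 1 / kap w T) ≤ Real.sqrt C2 * Real.sqrt h := by
      rw [← Real.sqrt_mul hC20.le]
      refine Real.sqrt_le_sqrt ?_
      have h1 : 0 < kap w T := by linarith
      have h2 : 1 - 1 / kap w T = (kap w T - 1) / kap w T := by field_simp
      rw [h2, div_le_iff₀ h1]
      nlinarith [mul_nonneg hC20.le hh0]
    set θ' := θ - round (θ / (2 * Real.pi)) * (2 * Real.pi) with hθ'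
    have hθb : |θ'| ≤ Real.pi := by
      have h1 := abs_sub_round (θ / (2 * Real.pi))
      have h2 : θ' = (θ / (2 * Real.pi) - round (θ / (2 * Real.pi))) * (2 * Real.pi) := by
        rw [hθ']; field_simp
      rw [h2, abs_mul, abs_of_pos (by positivity : (0 : ℝ) < 2 * Real.pi)]
      calc |θ / (2 * Real.pi) - round (θ / (2 * Real.pi))| * (2 * Real.pi)
          ≤ 1 / 2 * (2 * Real.pi) := mul_le_mul_of_nonneg_right h1 (by positivity)
        _ = Real.pi := by ring
    have h1 := near_isotropy_ineq hN hw hG.2 hΨ θ' hT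
    simp only [hθ', B7_turn_mod] at h1
    refine h1.trans ?_
    have h2 : 2 / (Om N * kap w T * T) ≤ 2 / (Om N * T) := by
      refine div_le_div_of_nonneg_left (by norm_num) (by positivity) ?_
      have h3 : Om N * T ≤ Om N * T * kap w T := le_mul_of_one_le_right (by positivity) hκ1
      linarith
    calc |θ - round (θ / (2 * Real.pi)) * (2 * Real.pi)|
          * (Real.sqrt (1 - 1 / kap w T) + 2 / (Om N * kap w T * T))
        ≤ Real.pi * (Real.sqrt C2 * Real.sqrt h + 2 / (Om N * T)) := by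
          refine mul_le_mul hθb (add_le_add hsq h2) ?_ hpi.le
          have : 0 < kap w T := by linarith
          positivity
      _ = Real.pi * Real.sqrt C2 * Real.sqrt h + 2 * Real.pi / Om N * (1 / T) := by
          field_simp
      _ ≤ (Real.pi * Real.sqrt C2 + 2 * Real.sqrt (8 * Real.pi) + 2 * Real.pi / Om N) *
          (Real.sqrt h + 1 / T) := by
          have h4 : 0 < 1 / T := by positivity
          have h5 : 0 ≤ Real.pi * Real.sqrt C2 := by positivity
          have h6 : 0 ≤ Real.sqrt (8 * Real.pi) := Real.sqrt_nonneg _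
          have h7 : 0 ≤ 2 * Real.pi / Om N := by positivity
          have h8 : 0 ≤ Real.pi * Real.sqrt C2 * (1 / T) := by positivity
          have h9 : 0 ≤ 2 * Real.sqrt (8 * Real.pi) * (Real.sqrt h + 1 / T) := by positivity
          have h10 : 0 ≤ 2 * Real.pi / Om N * Real.sqrt h := by positivity
          nlinarith
  · -- large excess: the trivial bound
    have hca : ∀ a, Continuous fun t => Ψ (turn a (w t)) := fun a => B7_obs_cont hw hΨ a
    have htriv : ∀ a, |T⁻¹ * (∫ t in (0 : ℝ)..T, Ψ (turn a (w t))) - Ψ 0| ≤ 1 := by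
      intro a
      have h3 : T⁻¹ * (∫ t in (0 : ℝ)..T, Ψ (turn a (w t))) - Ψ 0
          = T⁻¹ * ∫ t in (0 : ℝ)..T, (Ψ (turn a (w t)) - Ψ 0) := by
        rw [intervalIntegral.integral_sub ((hca a).intervalIntegrable _ _) intervalIntegrable_const,
          intervalIntegral.integral_const, smul_eq_mul]
        field_simp
        ring
      have h4 := intervalIntegral.norm_integral_le_of_norm_le_const (a := 0) (b := T) (C := 1)
        (f := fun t => Ψ (turn a (w t)) - Ψ 0)
        (fun t _ => B7_obs_bound hN1 hΨ (hGt t).2 a)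
      rw [sub_zero, abs_of_pos hT, one_mul] at h4
      rw [h3, abs_mul, abs_of_pos (inv_pos.mpr hT)]
      calc T⁻¹ * |∫ t in (0 : ℝ)..T, (Ψ (turn a (w t)) - Ψ 0)| ≤ T⁻¹ * T :=
            mul_le_mul_of_nonneg_left h4 (inv_pos.mpr hT).le
        _ = 1 := by field_simp
    have h1 := htriv θ
    have h2 := htriv 0
    simp only [B7_turn_zero] at h2
    have h3 : 1 ≤ Real.sqrt (8 * Real.pi) * Real.sqrt h := by
      rw [← Real.sqrt_mul (by positivity), Real.one_le_sqrt]
      linarith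
    have h4 : 0 < 1 / T := by positivity
    have h5 : 0 ≤ Real.pi * Real.sqrt C2 * (Real.sqrt h + 1 / T) := by positivity
    have h6 : 0 ≤ 2 * Real.pi / Om N * (Real.sqrt h + 1 / T) := by positivity
    have h7 : 0 ≤ 2 * Real.sqrt (8 * Real.pi) * (1 / T) := by positivity
    rw [abs_le] at h1 h2 ⊢
    constructor <;> nlinarith [h1.1, h1.2, h2.1, h2.2]

end

end Pool.Agent.Lib_helper25.PV
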